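import Mathlib

set_option autoImplicit false

/-!
# Rigid origami

Crease patterns on a compact plane region, rigid origami maps, the configuration space of a crease
pattern (as a set of vectors of folding angles), and rigid foldability.
-/

namespace Pool.Agent.TH560.Ori

open Set Filter Topology

/-- The plane of the unfolded sheet. -/
abbrev Plane := EuclideanSpace ℝ (Fin 2)

/-- Euclidean three-space. -/
abbrev Space := EuclideanSpace ℝ (Fin 3)

/-- The cross product of Euclidean three-space. -/
noncomputable def cross (u v : Space) : Space :=
  !₂[u 1 * v 2 - u 2 * v 1, u 2 * v 0 - u 0 * v 2, u 0 * v 1 - u 1 * v 0]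

/-- The counterclockwise quarter turn of the plane. -/
noncomputable def turn (u : Plane) : Plane := !₂[-(u 1), u 0]

/-- A crease pattern: a finite plane graph with straight edges (the creases), drawn on a compact
region `R` of the plane.  The set of vertices is `V`, the creases are the segments from `p i` to
`q i`, where `i` runs over `ι`. -/
structure CreasePattern (ι : Type) where
  /-- the sheet of paper -/
  R : Set Plane
  isCompact_R : IsCompact R
  /-- the sheet is the closure of a domain of the plane -/
  closure_interior_R : closure (interior R) = R
  isConnected_interior_R : IsConnected (interior R)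
  /-- the vertices -/
  V : Finset Plane
  V_subset : (V : Set Plane) ⊆ R
  /-- one end of a crease -/
  p : ι → Plane
  /-- the other end of a crease -/
  q : ι → Plane
  p_mem : ∀ i, p i ∈ V
  q_mem : ∀ i, q i ∈ V
  p_ne_q : ∀ i, p i ≠ q i
  /-- a crease runs, apart from its ends, in the interior of the sheet -/
  openSegment_subset : ∀ i, openSegment ℝ (p i) (q i) ⊆ interior R
  /-- no vertex lies in the relative interior of a crease -/
  vertex_notMem : ∀ i, ∀ x ∈ V, x ∉ openSegment ℝ (p i) (q i)
  /-- two different creases have at most end points in common -/
  inter_subset : ∀ i j, i ≠ j →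
    segment ℝ (p i) (q i) ∩ segment ℝ (p j) (q j) ⊆ {p i, q i} ∩ {p j, q j}

namespace CreasePattern

variable {ι : Type} (G : CreasePattern ι)

/-- The union of all creases. -/
def creases : Set Plane := ⋃ i, segment ℝ (G.p i) (G.q i)

/-- The faces are the closures of the connected components of the sheet minus the creases. -/
def IsFace (F : Set Plane) : Prop :=
  ∃ x ∈ G.R \ G.creases, F = closure (connectedComponentIn (G.R \ G.creases) x)

end CreasePattern

/-- The folding angle of the map `σ` at the crease from `p` to `q` is `ρ` (modulo `2π`).

For a point `m` of the crease, `A = σ (m + s n) - σ m` is the image of the vector `s n` pointing to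
the left of the crease, `n` being the left normal, and `D = (σ q - σ p) / ‖q - p‖` is the image of
the unit vector in the direction of the crease. So `cross D A` is perpendicular to the image of the
left side, it points to the upper side of the sheet and it has the length of `A`. The image of the
vector `-s n` pointing to the right has to be `-cos ρ • A + sin ρ • cross D A`: the flat position
`-A` for `ρ = 0`, turned to the upper side (a valley) for `0 < ρ < π`, turned to the lower side (a
mountain) for `-π < ρ < 0`, and folded flat onto the left side for `ρ = π` and `ρ = -π`. -/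
def FoldAngle (σ : Plane → Space) (p q : Plane) (ρ : ℝ) : Prop :=
  ∀ m ∈ openSegment ℝ p q, ∀ᶠ s in 𝓝[>] (0 : ℝ),
    σ (m - s • turn (q - p)) - σ m =
      -(Real.cos ρ • (σ (m + s • turn (q - p)) - σ m)) +
        Real.sin ρ • cross (‖q - p‖⁻¹ • (σ q - σ p)) (σ (m + s • turn (q - p)) - σ m)

/-- `σ` is a uniform limit on `R` of injective continuous maps. -/
def IsLimitOfInjective (σ : Plane → Space) (R : Set Plane) : Prop :=
  ∀ ε > 0, ∃ τ : Plane → Space, ContinuousOn τ R ∧ InjOn τ R ∧ ∀ x ∈ R, dist (τ x) (σ x) < ε

namespace CreasePattern

variable {ι : Type} (G : CreasePattern ι)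

/-- `σ` is a rigid origami with crease pattern `G` and folding angles `ρ`. -/
structure IsRigidOrigami (σ : Plane → Space) (ρ : ι → ℝ) : Prop where
  continuousOn : ContinuousOn σ G.R
  isometric : ∀ F, G.IsFace F → ∀ x ∈ F, ∀ y ∈ F, dist (σ x) (σ y) = dist x y
  foldAngle : ∀ i, FoldAngle σ (G.p i) (G.q i) (ρ i)
  limit : IsLimitOfInjective σ G.R

/-- The configuration space: the set of all `ρ` in `[-π, π] ^ ι` realised by some rigid
origami, with the subspace topology. -/
def config : Set (ι → ℝ) :=
  {ρ | (∀ i, ρ i ∈ Icc (-Real.pi) Real.pi) ∧ ∃ σ, G.IsRigidOrigami σ ρ}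

/-- Exactly two of the vertices lie in the interior of the sheet. -/
def IsTwoVertex : Prop := ((G.V : Set Plane) ∩ interior G.R).ncard = 2

/-- There is a non-constant continuous path in the configuration space starting in the unfolded
state. -/
def RigidFoldable : Prop :=
  ∃ γ : unitInterval → (ι → ℝ), Continuous γ ∧ γ 0 = 0 ∧ (∀ t, γ t ∈ G.config) ∧
    ∃ t, γ t ≠ γ 0

end CreasePattern

end Pool.Agent.TH560.Ori
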