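import Mathlib
import Pool.Agent.Helper475.Miranda
import Pool.Agent.TH560.Ori.Defs

set_option autoImplicit false

namespace Pool.Agent.TH560.Ori

open Set Filter Topology

/-- A continuous map of the cube which is close to an injective linear map vanishing at the centre
has a zero. -/
theorem zero_of_near (A : (Fin 3 → ℝ) →ₗ[ℝ] Space) (hA : Function.Injective A) :
    ∃ ε > 0, ∀ h : (Fin 3 → ℝ) → Space,
      ContinuousOn h {x | ∀ i, 0 ≤ x i ∧ x i ≤ 1} →
      (∀ x : Fin 3 → ℝ, (∀ i, 0 ≤ x i ∧ x i ≤ 1) →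
        dist (h x) (A (fun i => x i - 1 / 2)) < ε) →
      ∃ x : Fin 3 → ℝ, (∀ i, 0 ≤ x i ∧ x i ≤ 1) ∧ h x = 0 := by
  let Ae : (Fin 3 → ℝ) ≃ₗ[ℝ] Space := A.linearEquivOfInjective hA (by simp)
  have hAe : ∀ x, Ae x = A x := fun x => rfl
  let B : Space →L[ℝ] (Fin 3 → ℝ) := LinearMap.toContinuousLinearMap Ae.symm.toLinearMap
  have hB : ∀ y, B y = Ae.symm y := fun y => rfl
  refine ⟨1 / (2 * (‖B‖ + 1)), by positivity, ?_⟩
  intro h hcont hnear
  have hK : 0 < ‖B‖ + 1 := by positivity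
  have key : ∀ x : Fin 3 → ℝ, (∀ i, 0 ≤ x i ∧ x i ≤ 1) → ∀ i,
      |B (h x) i - (x i - 1 / 2)| ≤ 1 / 2 := by
    intro x hx i
    have h1 : B (A (fun i => x i - 1 / 2)) = fun i => x i - 1 / 2 := by
      rw [hB, ← hAe, LinearEquiv.symm_apply_apply]
    have h2 : B (h x) i - (x i - 1 / 2) = (B (h x - A (fun i => x i - 1 / 2))) i := by
      rw [map_sub, h1]; rfl
    rw [h2]
    calc |(B (h x - A (fun i => x i - 1 / 2))) i|
        ≤ ‖B (h x - A (fun i => x i - 1 / 2))‖ := norm_le_pi_norm (B (h x - A (fun i => x i - 1 / 2))) i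
      _ ≤ ‖B‖ * ‖h x - A (fun i => x i - 1 / 2)‖ := B.le_opNorm _
      _ ≤ (‖B‖ + 1) * (1 / (2 * (‖B‖ + 1))) := by
          have := hnear x hx
          rw [dist_eq_norm] at this
          apply mul_le_mul (by linarith) this.le (norm_nonneg _) hK.le
      _ = 1 / 2 := by field_simp
  obtain ⟨x, hx, hx0⟩ := Pool.Agent.Helper475.Miranda.poincare_miranda 3 (fun x => B (h x))
    (B.continuous.comp_continuousOn hcont)
    (by
      intro x hx i hi
      have := abs_le.1 (key x hx i)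
      rw [hi] at this
      linarith [this.2])
    (by
      intro x hx i hi
      have := abs_le.1 (key x hx i)
      rw [hi] at this
      linarith [this.1])
  refine ⟨x, hx, ?_⟩
  have h3 : Ae.symm (h x) = 0 := hx0
  exact (LinearEquiv.map_eq_zero_iff _).1 h3

/-- A function on an interval which is covered by finitely many closed sets, on each of which the
function is Lipschitz with constant `L`, is Lipschitz with constant `L`. -/
theorem glue_line {ι F : Type*} [NormedAddCommGroup F] (C : ι → Set ℝ)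
    (g : ℝ → F) (L : ℝ) (J : Finset ι) (hC : ∀ j ∈ J, IsClosed (C j))
    (hL : ∀ j ∈ J, ∀ s ∈ C j, ∀ t ∈ C j, s ≤ t → ‖g t - g s‖ ≤ L * (t - s)) :
    ∀ a b : ℝ, a ≤ b → Icc a b ⊆ ⋃ j ∈ J, C j → ‖g b - g a‖ ≤ L * (b - a) := by
  classical
  induction J using Finset.strongInduction with
  | H J ih =>
    intro a b hab hcov
    have ha : a ∈ ⋃ j ∈ J, C j := hcov ⟨le_rfl, hab⟩
    simp only [mem_iUnion, exists_prop] at ha
    obtain ⟨j, hj, haj⟩ := ha
    -- last point of `C j` in the interval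
    have hcomp : IsCompact (C j ∩ Icc a b) := by
      rw [inter_comm]
      exact isCompact_Icc.inter_right (hC j hj)
    have hne : (C j ∩ Icc a b).Nonempty := ⟨a, haj, le_rfl, hab⟩
    obtain ⟨s, hs, hmax⟩ := hcomp.exists_isGreatest hne
    have h1 : ‖g s - g a‖ ≤ L * (s - a) := hL j hj a haj s hs.1 hs.2.1
    rcases eq_or_lt_of_le hs.2.2 with hsb | hsb
    · rw [← hsb]; exact h1
    · have hcov' : Icc s b ⊆ ⋃ i ∈ J.erase j, C i := by
        have hclosed : IsClosed (⋃ i ∈ J.erase j, C i) :=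
          isClosed_biUnion_finset (fun i hi => hC i (Finset.mem_of_mem_erase hi))
        have hsub : Ioc s b ⊆ ⋃ i ∈ J.erase j, C i := by
          intro t ht
          have := hcov (⟨hs.2.1.trans ht.1.le, ht.2⟩ : t ∈ Icc a b)
          simp only [mem_iUnion, exists_prop] at this ⊢
          obtain ⟨i, hi, hti⟩ := this
          refine ⟨i, Finset.mem_erase.2 ⟨?_, hi⟩, hti⟩
          rintro rfl
          exact absurd (hmax ⟨hti, hs.2.1.trans ht.1.le, ht.2⟩) (not_le.2 ht.1)
        calc Icc s b = closure (Ioc s b) := (closure_Ioc hsb.ne).symm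
          _ ⊆ _ := closure_minimal hsub hclosed
      have h2 := ih (J.erase j) (Finset.erase_ssubset hj)
        (fun i hi => hC i (Finset.mem_of_mem_erase hi))
        (fun i hi => hL i (Finset.mem_of_mem_erase hi)) s b hsb.le hcov'
      calc ‖g b - g a‖ = ‖(g b - g s) + (g s - g a)‖ := by congr 1; abel
        _ ≤ ‖g b - g s‖ + ‖g s - g a‖ := norm_add_le _ _
        _ ≤ L * (b - s) + L * (s - a) := add_le_add h2 h1
        _ = L * (b - a) := by ring

/-- Gluing of Lipschitz functions on a convex set. -/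
theorem glue_convex {ι E F : Type*} [Fintype ι] [NormedAddCommGroup E] [NormedSpace ℝ E]
    [NormedAddCommGroup F] (K : Set E) (hK : Convex ℝ K) (C : ι → Set E) (hC : ∀ j, IsClosed (C j))
    (hcov : K ⊆ ⋃ j, C j) (f : E → F) (L : ℝ)
    (hL : ∀ j, ∀ x ∈ K ∩ C j, ∀ y ∈ K ∩ C j, ‖f y - f x‖ ≤ L * ‖y - x‖) :
    ∀ x ∈ K, ∀ y ∈ K, ‖f y - f x‖ ≤ L * ‖y - x‖ := by
  intro x hx y hy
  let c : ℝ → E := fun s => x + s • (y - x)
  have hc : Continuous c := by fun_prop
  have hcK : ∀ s ∈ Icc (0 : ℝ) 1, c s ∈ K := by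
    intro s hs
    have := hK hx hy (by linarith [hs.2] : 0 ≤ 1 - s) hs.1 (by ring)
    convert this using 1
    simp only [c, smul_sub, sub_smul, one_smul]
    abel
  have h := glue_line (fun j => c ⁻¹' (C j) ∩ Icc 0 1) (fun s => f (c s)) (L * ‖y - x‖)
    Finset.univ (fun j _ => ((hC j).preimage hc).inter isClosed_Icc)
    (by
      intro j _ s hs t ht hst
      have h1 := hL j (c s) ⟨hcK s hs.2, hs.1⟩ (c t) ⟨hcK t ht.2, ht.1⟩
      have h2 : c t - c s = (t - s) • (y - x) := by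
        simp only [c, sub_smul]; abel
      rw [h2, norm_smul, Real.norm_eq_abs, abs_of_nonneg (sub_nonneg.2 hst)] at h1
      calc ‖f (c t) - f (c s)‖ ≤ L * ((t - s) * ‖y - x‖) := h1
        _ = L * ‖y - x‖ * (t - s) := by ring)
    0 1 zero_le_one
    (by
      intro s hs
      have := hcov (hcK s hs)
      simp only [mem_iUnion] at this
      obtain ⟨j, hj⟩ := this
      simp only [mem_iUnion]
      exact ⟨j, Finset.mem_univ j, hj, hs⟩)
  simpa [c] using h

theorem inner_space (u v : Space) : inner ℝ u v = u 0 * v 0 + u 1 * v 1 + u 2 * v 2 := by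
  rw [PiLp.inner_apply]
  simp [Fin.sum_univ_three]
  ring

theorem normSq_space (u : Space) : ‖u‖ ^ 2 = u 0 ^ 2 + u 1 ^ 2 + u 2 ^ 2 := by
  rw [EuclideanSpace.norm_sq_eq]
  simp [Fin.sum_univ_three]

theorem normSq_plane (u : Plane) : ‖u‖ ^ 2 = u 0 ^ 2 + u 1 ^ 2 := by
  rw [EuclideanSpace.norm_sq_eq]
  simp

theorem ext_space {u v : Space} (h0 : u 0 = v 0) (h1 : u 1 = v 1) (h2 : u 2 = v 2) : u = v := by
  ext i
  fin_cases i
  · exact h0
  · exact h1
  · exact h2

theorem ext_plane {u v : Plane} (h0 : u 0 = v 0) (h1 : u 1 = v 1) : u = v := by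
  ext i
  fin_cases i
  · exact h0
  · exact h1

/-- A distance preserving map of a set of the plane containing three points which are not on a line
is given by an orthonormal pair of vectors. -/
theorem frame_of_isometric (K : Set Plane) (σ : Plane → Space)
    (hσ : ∀ x ∈ K, ∀ y ∈ K, dist (σ x) (σ y) = dist x y)
    (o p q : Plane) (ho : o ∈ K) (hp : p ∈ K) (hq : q ∈ K)
    (hdet : (p 0 - o 0) * (q 1 - o 1) - (p 1 - o 1) * (q 0 - o 0) ≠ 0) :
    ∃ X Y : Space, ‖X‖ ^ 2 = 1 ∧ ‖Y‖ ^ 2 = 1 ∧ inner ℝ X Y = 0 ∧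
      ∀ x ∈ K, σ x = σ o + (x 0 - o 0) • X + (x 1 - o 1) • Y := by
  -- inner products are preserved
  have hsq : ∀ x ∈ K, ∀ y ∈ K, ‖σ x - σ y‖ ^ 2 = (x 0 - y 0) ^ 2 + (x 1 - y 1) ^ 2 := by
    intro x hx y hy
    have := hσ x hx y hy
    rw [dist_eq_norm, dist_eq_norm] at this
    rw [this, normSq_plane]
    rfl
  have hin : ∀ x ∈ K, ∀ y ∈ K, inner ℝ (σ x - σ o) (σ y - σ o) =
      (x 0 - o 0) * (y 0 - o 0) + (x 1 - o 1) * (y 1 - o 1) := by
    intro x hx y hy
    have h1 := hsq x hx o ho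
    have h2 := hsq y hy o ho
    have h3 := hsq x hx y hy
    have h4 : σ x - σ y = (σ x - σ o) - (σ y - σ o) := by abel
    rw [h4, @norm_sub_sq ℝ, h1, h2] at h3
    simp only [RCLike.re_to_real] at h3
    linarith
  set D := (p 0 - o 0) * (q 1 - o 1) - (p 1 - o 1) * (q 0 - o 0) with hD
  set P := σ p - σ o with hP
  set Q := σ q - σ o with hQ
  set X : Space := D⁻¹ • ((q 1 - o 1) • P - (p 1 - o 1) • Q) with hX
  set Y : Space := D⁻¹ • (-(q 0 - o 0) • P + (p 0 - o 0) • Q) with hY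
  have hPP := hin p hp p hp
  have hPQ := hin p hp q hq
  have hQQ := hin q hq q hq
  rw [← hP] at hPP hPQ
  rw [← hQ] at hPQ hQQ
  have hQP : inner ℝ Q P = (p 0 - o 0) * (q 0 - o 0) + (p 1 - o 1) * (q 1 - o 1) := by
    rw [real_inner_comm, hPQ]
  have hXX : inner ℝ X X = 1 := by
    simp only [hX, inner_smul_left, inner_smul_right, inner_sub_left, inner_sub_right, hPP, hPQ,
      hQQ, hQP, RCLike.conj_to_real]
    field_simp
    rw [hD]; ring
  have hYY : inner ℝ Y Y = 1 := by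
    simp only [hY, inner_smul_left, inner_smul_right, inner_add_left, inner_add_right, hPP, hPQ,
      hQQ, hQP, RCLike.conj_to_real]
    field_simp
    rw [hD]; ring
  have hXY : inner ℝ X Y = 0 := by
    simp only [hX, hY, inner_smul_left, inner_smul_right, inner_add_right,
      inner_sub_left, hPP, hPQ, hQQ, hQP, RCLike.conj_to_real]
    field_simp
    ring
  refine ⟨X, Y, by rw [← real_inner_self_eq_norm_sq]; exact hXX,
    by rw [← real_inner_self_eq_norm_sq]; exact hYY, hXY, ?_⟩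
  intro x hx
  have hxx := hin x hx x hx
  have hxP := hin x hx p hp
  have hxQ := hin x hx q hq
  rw [← hP] at hxP
  rw [← hQ] at hxQ
  have hxX : inner ℝ (σ x - σ o) X = x 0 - o 0 := by
    simp only [hX, inner_smul_right, inner_sub_right, hxP, hxQ]
    field_simp
    rw [hD]; ring
  have hxY : inner ℝ (σ x - σ o) Y = x 1 - o 1 := by
    simp only [hY, inner_smul_right, inner_add_right, hxP, hxQ]
    field_simp
    rw [hD]; ring
  have hYX : inner ℝ Y X = 0 := by rw [real_inner_comm, hXY]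
  have hXx : inner ℝ X (σ x - σ o) = x 0 - o 0 := by rw [real_inner_comm, hxX]
  have hYx : inner ℝ Y (σ x - σ o) = x 1 - o 1 := by rw [real_inner_comm, hxY]
  have hzero : inner ℝ (σ x - σ o - ((x 0 - o 0) • X + (x 1 - o 1) • Y))
      (σ x - σ o - ((x 0 - o 0) • X + (x 1 - o 1) • Y)) = (0 : ℝ) := by
    clear hxP hxQ
    generalize σ x - σ o = W at hxx hxX hxY hXx hYx ⊢
    rw [inner_sub_left, inner_sub_right, inner_sub_right, hxx]
    simp only [inner_add_left, inner_add_right, inner_smul_left, inner_smul_right, hxX, hxY, hXx,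
      hYx, hXX, hYY, hXY, hYX, RCLike.conj_to_real]
    ring
  have h0 := inner_self_eq_zero.1 hzero
  have h1 := sub_eq_zero.1 h0
  rw [add_assoc, ← h1]
  abel

end Pool.Agent.TH560.Ori
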