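import Mathlib
import Pool.Agent.TH560.Ori.Gen

set_option autoImplicit false

/-! The crease pattern of the counterexample. -/

namespace Pool.Agent.TH560.Ori

open Set Filter Topology

/-- the sheet: a rectangle -/
def sheet : Set Plane :=
  {x | -2 ≤ x 0 ∧ x 0 ≤ 9 / 4 ∧ -(1 / 10) ≤ x 1 ∧ x 1 ≤ 1 / 10}

theorem convex_sheet : Convex ℝ sheet := by
  intro x hx y hy a b ha hb hab
  obtain ⟨h1, h2, h3, h4⟩ := hx
  obtain ⟨k1, k2, k3, k4⟩ := hy
  have e0 : (a • x + b • y) 0 = a * x 0 + b * y 0 := by simp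
  have e1 : (a • x + b • y) 1 = a * x 1 + b * y 1 := by simp
  have hb' : b = 1 - a := by linarith
  subst hb'
  refine ⟨?_, ?_, ?_, ?_⟩
  · rw [e0]; nlinarith
  · rw [e0]; nlinarith
  · rw [e1]; nlinarith
  · rw [e1]; nlinarith

theorem isClosed_sheet : IsClosed sheet := by
  have h : sheet = {x : Plane | -2 ≤ x 0} ∩ {x : Plane | x 0 ≤ 9 / 4} ∩
      {x : Plane | -(1 / 10) ≤ x 1} ∩ {x : Plane | x 1 ≤ 1 / 10} := by
    ext x; simp only [sheet, mem_ofPred_eq, mem_inter_iff]; tauto
  rw [h]
  have c0 : Continuous fun x : Plane => x 0 := by fun_prop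
  have c1 : Continuous fun x : Plane => x 1 := by fun_prop
  exact (((isClosed_le continuous_const c0).inter (isClosed_le c0 continuous_const)).inter
    (isClosed_le continuous_const c1)).inter (isClosed_le c1 continuous_const)

theorem isCompact_sheet : IsCompact sheet := by
  apply Metric.isCompact_of_isClosed_isBounded isClosed_sheet
  apply (Metric.isBounded_closedBall (x := (0 : Plane)) (r := 3)).subset
  intro x hx
  obtain ⟨h1, h2, h3, h4⟩ := hx
  rw [mem_closedBall_zero_iff]
  have h := normSq_plane x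
  nlinarith [norm_nonneg x]

theorem interior_sheet : interior sheet =
    {x : Plane | -2 < x 0 ∧ x 0 < 9 / 4 ∧ -(1 / 10) < x 1 ∧ x 1 < 1 / 10} := by
  apply Subset.antisymm
  · intro x hx
    rw [mem_interior_iff_mem_nhds, Metric.mem_nhds_iff] at hx
    obtain ⟨ε, hε, hsub⟩ := hx
    have key : ∀ u : Plane, ‖u‖ ≤ 1 → x + (ε / 2) • u ∈ sheet := by
      intro u hu
      apply hsub
      rw [Metric.mem_ball, dist_eq_norm, add_sub_cancel_left, norm_smul, Real.norm_eq_abs,
        abs_of_pos (by positivity)]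
      nlinarith [norm_nonneg u]
    have n0 : ‖(!₂[1, 0] : Plane)‖ ≤ 1 := by
      have h := normSq_plane (!₂[1, 0] : Plane)
      simp at h
      rcases h with h | h <;> rw [h]
      norm_num
    have n1 : ‖(!₂[0, 1] : Plane)‖ ≤ 1 := by
      have h := normSq_plane (!₂[0, 1] : Plane)
      simp at h
      rcases h with h | h <;> rw [h]
      norm_num
    have a1 := key _ n0
    have a2 := key (-!₂[1, 0]) (by rw [norm_neg]; exact n0)
    have a3 := key _ n1
    have a4 := key (-!₂[0, 1]) (by rw [norm_neg]; exact n1)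
    simp only [sheet, mem_ofPred_eq, PiLp.add_apply, PiLp.smul_apply, PiLp.neg_apply, smul_eq_mul,
      Matrix.cons_val_zero, Matrix.cons_val_one] at a1 a2 a3 a4
    simp at a1 a2 a3 a4
    refine ⟨by linarith [a2.1], by linarith [a1.2.1], by linarith [a4.2.2.1], by linarith [a3.2.2.2]⟩
  · apply interior_maximal
    · intro x hx
      exact ⟨hx.1.le, hx.2.1.le, hx.2.2.1.le, hx.2.2.2.le⟩
    · have h : {x : Plane | -2 < x 0 ∧ x 0 < 9 / 4 ∧ -(1 / 10) < x 1 ∧ x 1 < 1 / 10} =
          {x : Plane | -2 < x 0} ∩ {x : Plane | x 0 < 9 / 4} ∩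
          {x : Plane | -(1 / 10) < x 1} ∩ {x : Plane | x 1 < 1 / 10} := by
        ext x; simp only [mem_ofPred_eq, mem_inter_iff]; tauto
      rw [h]
      have c0 : Continuous fun x : Plane => x 0 := by fun_prop
      have c1 : Continuous fun x : Plane => x 1 := by fun_prop
      exact (((isOpen_lt continuous_const c0).inter (isOpen_lt c0 continuous_const)).inter
        (isOpen_lt continuous_const c1)).inter (isOpen_lt c1 continuous_const)

/-- first interior vertex -/
noncomputable def vv : Plane := !₂[0, 0]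

/-- second interior vertex -/
noncomputable def ww : Plane := !₂[1, 0]

theorem vv_mem : vv ∈ interior sheet := by
  rw [interior_sheet]; simp [vv]

theorem ww_mem : ww ∈ interior sheet := by
  rw [interior_sheet]; simp [ww]; norm_num

/-- first ends of the creases -/
noncomputable def pp : Fin 7 → Plane := ![vv, vv, vv, vv, ww, ww, ww]

/-- second ends of the creases -/
noncomputable def qq : Fin 7 → Plane :=
  ![ww, !₂[-(7 / 240), 1 / 10], !₂[-(2583 / 11440), -(1 / 10)], !₂[3 / 224, -(1 / 10)],
    !₂[13 / 16, 1 / 10], !₂[2221 / 2200, 1 / 10], !₂[25 / 24, -(1 / 10)]]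

theorem pp_mem (i : Fin 7) : pp i ∈ interior sheet := by
  fin_cases i <;> simp only [pp] <;> first | exact vv_mem | exact ww_mem

theorem qq_mem (i : Fin 7) : qq i ∈ sheet := by
  fin_cases i <;> simp [qq, sheet, ww] <;> norm_num

theorem mem_segment_coord {p q x : Plane} (h : x ∈ segment ℝ p q) :
    ∃ t : ℝ, 0 ≤ t ∧ t ≤ 1 ∧ x 0 = p 0 + t * (q 0 - p 0) ∧ x 1 = p 1 + t * (q 1 - p 1) := by
  obtain ⟨a, b, ha, hb, hab, rfl⟩ := h
  refine ⟨b, hb, by linarith, ?_, ?_⟩
  · have : a = 1 - b := by linarith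
    subst this
    simp; ring
  · have : a = 1 - b := by linarith
    subst this
    simp; ring

theorem mem_openSegment_coord {p q x : Plane} (h : x ∈ openSegment ℝ p q) :
    ∃ t : ℝ, 0 < t ∧ t < 1 ∧ x 0 = p 0 + t * (q 0 - p 0) ∧ x 1 = p 1 + t * (q 1 - p 1) := by
  obtain ⟨a, b, ha, hb, hab, rfl⟩ := h
  refine ⟨b, hb, by linarith, ?_, ?_⟩
  · have : a = 1 - b := by linarith
    subst this
    simp; ring
  · have : a = 1 - b := by linarith
    subst this
    simp; ring


theorem segment_inter (i j : Fin 7) (hij : i ≠ j) :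
    segment ℝ (pp i) (qq i) ∩ segment ℝ (pp j) (qq j) ⊆ {pp i, qq i} ∩ {pp j, qq j} := by
  intro x hx
  obtain ⟨t, ht0, ht1, hx0, hx1⟩ := mem_segment_coord hx.1
  obtain ⟨s, hs0, hs1, hy0, hy1⟩ := mem_segment_coord hx.2
  fin_cases i <;> fin_cases j <;>
    first
    | exact absurd rfl hij
    | (simp [pp, qq, vv, ww] at hx0 hx1 hy0 hy1
       first
       | (exfalso; linarith)
       | (have e0 : x 0 = 0 := by linarith
          have e1 : x 1 = 0 := by linarith
          have hxv : x = vv := ext_plane (by simpa [vv] using e0) (by simpa [vv] using e1)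
          subst hxv
          simp [pp])
       | (have e0 : x 0 = 1 := by linarith
          have e1 : x 1 = 0 := by linarith
          have hxv : x = ww := ext_plane (by simpa [ww] using e0) (by simpa [ww] using e1)
          subst hxv
          simp [pp, qq]))

end Pool.Agent.TH560.Ori
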