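import Mathlib
import Pool.Agent.TH560.Ori.Pat

set_option autoImplicit false

/-! The crease pattern of the counterexample: the structure, its pieces. -/

namespace Pool.Agent.TH560.Ori

open Set Filter Topology

theorem vv_ne_ww : vv ≠ ww := by
  intro h
  have := congrArg (fun x : Plane => x 0) h
  simp [vv, ww] at this

theorem qq_interior (i : Fin 7) (h : qq i ∈ interior sheet) : qq i = ww := by
  rw [interior_sheet] at h
  obtain ⟨-, -, h3, h4⟩ := h
  fin_cases i
  · rfl
  all_goals (simp [qq] at h3 h4)

theorem exists_verts : ∃ V : Finset Plane, ∀ x, x ∈ V ↔ (x ∈ range pp ∨ x ∈ range qq) :=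
  ⟨((Set.finite_range pp).union (Set.finite_range qq)).toFinset, fun x => by simp⟩

/-- the vertices -/
noncomputable def verts : Finset Plane := exists_verts.choose

theorem mem_verts (x : Plane) : x ∈ verts ↔ (x ∈ range pp ∨ x ∈ range qq) :=
  exists_verts.choose_spec x

theorem verts_inter : (verts : Set Plane) ∩ interior sheet = {vv, ww} := by
  ext x
  simp only [mem_inter_iff, Finset.mem_coe, mem_verts, mem_insert_iff, mem_singleton_iff]
  constructor
  · rintro ⟨⟨i, rfl⟩ | ⟨i, rfl⟩, h⟩
    · fin_cases i <;> simp [pp]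
    · exact Or.inr (qq_interior i h)
  · rintro (rfl | rfl)
    · exact ⟨Or.inl ⟨0, rfl⟩, vv_mem⟩
    · exact ⟨Or.inr ⟨0, rfl⟩, ww_mem⟩

theorem openSegment_sub (i : Fin 7) : openSegment ℝ (pp i) (qq i) ⊆ interior sheet :=
  convex_sheet.openSegment_interior_closure_subset_interior (pp_mem i)
    (subset_closure (qq_mem i))

theorem vv_notMem (i : Fin 7) : vv ∉ openSegment ℝ (pp i) (qq i) := by
  intro h
  obtain ⟨t, ht0, ht1, h0, h1⟩ := mem_openSegment_coord h
  fin_cases i <;> simp [pp, qq, vv, ww] at h0 h1 <;> linarith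

theorem ww_notMem (i : Fin 7) : ww ∉ openSegment ℝ (pp i) (qq i) := by
  intro h
  obtain ⟨t, ht0, ht1, h0, h1⟩ := mem_openSegment_coord h
  fin_cases i <;> simp [pp, qq, vv, ww] at h0 h1 <;> linarith

/-- **The crease pattern**: a rectangle with two vertices of degree four joined by a crease. -/
noncomputable def pat : CreasePattern (Fin 7) where
  R := sheet
  isCompact_R := isCompact_sheet
  closure_interior_R := by
    rw [convex_sheet.closure_interior_eq_closure_of_nonempty_interior ⟨vv, vv_mem⟩,
      isClosed_sheet.closure_eq]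
  isConnected_interior_R := ⟨⟨vv, vv_mem⟩, convex_sheet.interior.isPreconnected⟩
  V := verts
  V_subset := by
    intro x hx
    rw [Finset.mem_coe, mem_verts] at hx
    rcases hx with ⟨i, rfl⟩ | ⟨i, rfl⟩
    · exact interior_subset (pp_mem i)
    · exact qq_mem i
  p := pp
  q := qq
  p_mem i := (mem_verts _).2 (Or.inl ⟨i, rfl⟩)
  q_mem i := (mem_verts _).2 (Or.inr ⟨i, rfl⟩)
  p_ne_q i := by
    intro h
    have h0 := congrArg (fun x : Plane => x 0) h
    have h1 := congrArg (fun x : Plane => x 1) h
    fin_cases i <;> simp [pp, qq, vv, ww] at h0 h1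
  openSegment_subset := openSegment_sub
  vertex_notMem := by
    intro i x hx hxi
    have h : x ∈ (verts : Set Plane) ∩ interior sheet := ⟨hx, openSegment_sub i hxi⟩
    rw [verts_inter] at h
    rcases h with rfl | h
    · exact vv_notMem i hxi
    · rw [mem_singleton_iff] at h
      subst h
      exact ww_notMem i hxi
  inter_subset := segment_inter

theorem pat_isTwoVertex : pat.IsTwoVertex := by
  unfold CreasePattern.IsTwoVertex
  change ((verts : Set Plane) ∩ interior sheet).ncard = 2
  rw [verts_inter, Set.ncard_pair vv_ne_ww]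

end Pool.Agent.TH560.Ori
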