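import Mathlib
import Pool.Agent.TH560.Ori.Pat2

set_option autoImplicit false

/-! The six faces of the crease pattern. -/

namespace Pool.Agent.TH560.Ori

open Set Filter Topology

/-- affine function with given coefficients -/
def aff (f : ℝ × ℝ × ℝ) (x : Plane) : ℝ := f.1 * x 0 + f.2.1 * x 1 + f.2.2

/-- the affine inequalities of the six pieces -/
def ineqs : Fin 6 → List (ℝ × ℝ × ℝ) :=
  ![[(0, 1, 0), (24, 7, 0), (-8, -15, 8), (0, -5, 1), (0, 5, 1)],
    [(-24, -7, 0), (-1144, 2583, 0), (0, -5, 1), (0, 5, 1)],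
    [(1144, -2583, 0), (-112, -15, 0), (0, -5, 1), (0, 5, 1)],
    [(0, -1, 0), (112, 15, 0), (-12, -5, 12), (0, -5, 1), (0, 5, 1)],
    [(8, 15, -8), (-220, 21, 220), (0, -5, 1), (0, 5, 1)],
    [(220, -21, -220), (12, 5, -12), (0, -5, 1), (0, 5, 1)]]

/-- open pieces -/
def opn (j : Fin 6) : Set Plane := {x | ∀ f ∈ ineqs j, 0 < aff f x}

/-- closed pieces -/
def cls (j : Fin 6) : Set Plane := {x | x ∈ sheet ∧ ∀ f ∈ ineqs j, 0 ≤ aff f x}

theorem continuous_aff (f : ℝ × ℝ × ℝ) : Continuous (aff f) := by
  unfold aff; fun_prop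

theorem aff_comb (f : ℝ × ℝ × ℝ) (x y : Plane) (a b : ℝ) (hab : a + b = 1) :
    aff f (a • x + b • y) = a * aff f x + b * aff f y := by
  have hb : b = 1 - a := by linarith
  subst hb
  simp [aff]; ring

theorem isOpen_opn (j : Fin 6) : IsOpen (opn j) := by
  have h : opn j = ⋂ f ∈ (ineqs j).toFinset, {x | 0 < aff f x} := by
    ext x; simp [opn]
  rw [h]
  exact isOpen_biInter_finset (fun f _ => isOpen_lt continuous_const (continuous_aff f))

theorem isClosed_cls (j : Fin 6) : IsClosed (cls j) := by
  have h : cls j = sheet ∩ ⋂ f ∈ (ineqs j).toFinset, {x | 0 ≤ aff f x} := by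
    ext x; simp [cls]
  rw [h]
  exact isClosed_sheet.inter
    (isClosed_biInter (fun f _ => isClosed_le continuous_const (continuous_aff f)))

theorem convex_opn (j : Fin 6) : Convex ℝ (opn j) := by
  intro x hx y hy a b ha hb hab f hf
  rw [aff_comb f x y a b hab]
  have h1 := hx f hf
  have h2 := hy f hf
  rcases eq_or_lt_of_le ha with h | h
  · have : b = 1 := by linarith
    rw [← h, this]; linarith
  · have := mul_pos h h1
    have := mul_nonneg hb h2.le
    linarith

theorem mem_cls {j : Fin 6} {x : Plane} (h1 : x ∈ sheet) (h2 : x ∈ opn j) : x ∈ cls j :=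
  ⟨h1, fun f hf => (h2 f hf).le⟩

theorem cover {x : Plane} (hx : x ∈ sheet) : x ∈ pat.creases ∨ ∃ j, x ∈ opn j := by
  obtain ⟨h1, h2, h3, h4⟩ := hx
  have crease : ∀ i : Fin 7, (∃ t : ℝ, 0 ≤ t ∧ t ≤ 1 ∧ x 0 = pp i 0 + t * (qq i 0 - pp i 0) ∧
      x 1 = pp i 1 + t * (qq i 1 - pp i 1)) → x ∈ pat.creases := by
    rintro i ⟨t, ht0, ht1, e0, e1⟩
    simp only [CreasePattern.creases, mem_iUnion]
    refine ⟨i, 1 - t, t, by linarith, ht0, by ring, ?_⟩
    apply ext_plane
    · change (((1 - t) • pp i + t • qq i : Plane)) 0 = x 0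
      rw [e0]; simp; ring
    · change (((1 - t) • pp i + t • qq i : Plane)) 1 = x 1
      rw [e1]; simp; ring
  rcases lt_trichotomy (x 1) 0 with hy | hy | hy
  · rcases lt_trichotomy (1144 * x 0 - 2583 * x 1) 0 with hc | hc | hc
    · right; refine ⟨1, ?_⟩
      simp [opn, ineqs, aff]
      refine ⟨by linarith, by linarith, by linarith, by linarith⟩
    · left
      apply crease 2
      refine ⟨-(10 * x 1), by linarith, by linarith, ?_, ?_⟩
      · simp [pp, qq, vv]; linarith
      · simp [pp, qq, vv]; linarith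
    · rcases lt_trichotomy (112 * x 0 + 15 * x 1) 0 with ha | ha | ha
      · right; refine ⟨2, ?_⟩
        simp [opn, ineqs, aff]
        refine ⟨by linarith, by linarith, by linarith, by linarith⟩
      · left
        apply crease 3
        refine ⟨-(10 * x 1), by linarith, by linarith, ?_, ?_⟩
        · simp [pp, qq, vv]; linarith
        · simp [pp, qq, vv]; linarith
      · rcases lt_trichotomy (12 * (x 0 - 1) + 5 * x 1) 0 with hb | hb | hb
        · right; refine ⟨3, ?_⟩
          simp [opn, ineqs, aff]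
          refine ⟨by linarith, by linarith, by linarith, by linarith, by linarith⟩
        · left
          apply crease 6
          refine ⟨-(10 * x 1), by linarith, by linarith, ?_, ?_⟩
          · simp [pp, qq, ww]; linarith
          · simp [pp, qq, ww]; linarith
        · right; refine ⟨5, ?_⟩
          simp [opn, ineqs, aff]
          refine ⟨by linarith, by linarith, by linarith, by linarith⟩
  · rcases lt_or_ge (x 0) 0 with h0 | h0
    · right; refine ⟨1, ?_⟩
      simp [opn, ineqs, aff]
      refine ⟨by linarith, by linarith, by linarith, by linarith⟩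
    · rcases le_or_gt (x 0) 1 with h5 | h5
      · left
        apply crease 0
        refine ⟨x 0, h0, h5, ?_, ?_⟩
        · simp [pp, qq, vv, ww]
        · simp [pp, qq, vv, ww]; linarith
      · right; refine ⟨5, ?_⟩
        simp [opn, ineqs, aff]
        refine ⟨by linarith, by linarith, by linarith, by linarith⟩
  · rcases lt_trichotomy (24 * x 0 + 7 * x 1) 0 with ha | ha | ha
    · right; refine ⟨1, ?_⟩
      simp [opn, ineqs, aff]
      refine ⟨by linarith, by linarith, by linarith, by linarith⟩
    · left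
      apply crease 1
      refine ⟨10 * x 1, by linarith, by linarith, ?_, ?_⟩
      · simp [pp, qq, vv]; linarith
      · simp [pp, qq, vv]; linarith
    · rcases lt_trichotomy (8 * (x 0 - 1) + 15 * x 1) 0 with hb | hb | hb
      · right; refine ⟨0, ?_⟩
        simp [opn, ineqs, aff]
        refine ⟨by linarith, by linarith, by linarith, by linarith, by linarith⟩
      · left
        apply crease 4
        refine ⟨10 * x 1, by linarith, by linarith, ?_, ?_⟩
        · simp [pp, qq, ww]; linarith
        · simp [pp, qq, ww]; linarith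
      · rcases lt_trichotomy (-220 * (x 0 - 1) + 21 * x 1) 0 with hd | hd | hd
        · right; refine ⟨5, ?_⟩
          simp [opn, ineqs, aff]
          refine ⟨by linarith, by linarith, by linarith, by linarith⟩
        · left
          apply crease 5
          refine ⟨10 * x 1, by linarith, by linarith, ?_, ?_⟩
          · simp [pp, qq, ww]; linarith
          · simp [pp, qq, ww]; linarith
        · right; refine ⟨4, ?_⟩
          simp [opn, ineqs, aff]
          refine ⟨by linarith, by linarith, by linarith, by linarith⟩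

theorem opn_disjoint (i j : Fin 6) (hij : i ≠ j) : Disjoint (opn i) (opn j) := by
  rw [Set.disjoint_left]
  intro x hx hy
  fin_cases i <;> fin_cases j <;>
    first
    | exact absurd rfl hij
    | (simp [opn, ineqs, aff] at hx hy
       linarith [hx.1, hx.2.1, hx.2.2.1, hx.2.2.2, hy.1, hy.2.1, hy.2.2.1, hy.2.2.2])

theorem opn_crease (j : Fin 6) (x : Plane) (hx : x ∈ opn j) : x ∉ pat.creases := by
  intro h
  simp only [CreasePattern.creases, mem_iUnion] at h
  obtain ⟨i, hi⟩ := h
  obtain ⟨t, ht0, ht1, e0, e1⟩ := mem_segment_coord hi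
  change x 0 = pp i 0 + t * (qq i 0 - pp i 0) at e0
  change x 1 = pp i 1 + t * (qq i 1 - pp i 1) at e1
  fin_cases j <;> simp [opn, ineqs, aff] at hx <;>
    (fin_cases i <;> simp [pp, qq, vv, ww] at e0 e1 <;>
      first
      | (obtain ⟨h1, h2, h3, h4, h5⟩ := hx
         linarith)
      | (obtain ⟨h1, h2, h3, h4⟩ := hx
         linarith))

/-- a point inside the piece -/
noncomputable def zz : Fin 6 → Plane :=
  ![!₂[1 / 2, 1 / 20], !₂[-1, 0], !₂[-(1 / 100), -(1 / 20)], !₂[1 / 2, -(1 / 20)], !₂[1, 1 / 20],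
    !₂[2, 0]]

theorem zz_opn (j : Fin 6) : zz j ∈ opn j := by
  fin_cases j <;> simp [opn, ineqs, aff, zz] <;> norm_num

theorem zz_sheet (j : Fin 6) : zz j ∈ sheet := by
  fin_cases j <;> simp [sheet, zz] <;> norm_num

theorem cls_subset_closure (j : Fin 6) : cls j ⊆ closure (sheet ∩ opn j) := by
  intro x hx
  have h : openSegment ℝ x (zz j) ⊆ sheet ∩ opn j := by
    rintro y ⟨a, b, ha, hb, hab, rfl⟩
    refine ⟨convex_sheet hx.1 (zz_sheet j) ha.le hb.le hab, ?_⟩
    intro f hf
    rw [aff_comb f _ _ a b hab]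
    have h1 := hx.2 f hf
    have h2 := zz_opn j f hf
    have := mul_pos hb h2
    have := mul_nonneg ha.le h1
    linarith
  exact closure_mono h (segment_subset_closure_openSegment (left_mem_segment ℝ _ _))

theorem sheet_opn_subset (j : Fin 6) : sheet ∩ opn j ⊆ pat.R \ pat.creases :=
  fun x hx => ⟨hx.1, opn_crease j x hx.2⟩

/-- Two points of the same closed piece lie in a common face. -/
theorem exists_face {j : Fin 6} {x y : Plane} (hx : x ∈ cls j) (hy : y ∈ cls j) :
    ∃ F, pat.IsFace F ∧ x ∈ F ∧ y ∈ F := by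
  have hz : zz j ∈ sheet ∩ opn j := ⟨zz_sheet j, zz_opn j⟩
  have h : sheet ∩ opn j ⊆ connectedComponentIn (pat.R \ pat.creases) (zz j) :=
    (convex_sheet.inter (convex_opn j)).isPreconnected.subset_connectedComponentIn hz
      (sheet_opn_subset j)
  exact ⟨_, ⟨zz j, sheet_opn_subset j hz, rfl⟩, closure_mono h (cls_subset_closure j hx),
    closure_mono h (cls_subset_closure j hy)⟩

/-- Every face is contained in a closed piece. -/
theorem face_subset {F : Set Plane} (hF : pat.IsFace F) : ∃ j, F ⊆ cls j := by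
  obtain ⟨x, hx, rfl⟩ := hF
  obtain ⟨j, hj⟩ := (cover hx.1).resolve_left hx.2
  refine ⟨j, closure_minimal ?_ (isClosed_cls j)⟩
  set C := connectedComponentIn (pat.R \ pat.creases) x with hC
  have hsub : C ⊆ pat.R \ pat.creases := connectedComponentIn_subset _ _
  have hpre : IsPreconnected C := isPreconnected_connectedComponentIn
  have hxC : x ∈ C := mem_connectedComponentIn hx
  have hopen : IsOpen (⋃ i ∈ {i : Fin 6 | i ≠ j}, opn i) :=
    isOpen_biUnion (fun i _ => isOpen_opn i)
  have hdis : Disjoint (opn j) (⋃ i ∈ {i : Fin 6 | i ≠ j}, opn i) := by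
    rw [Set.disjoint_iUnion₂_right]
    intro i hi
    exact opn_disjoint j i (Ne.symm hi)
  have hcov : C ⊆ opn j ∪ ⋃ i ∈ {i : Fin 6 | i ≠ j}, opn i := by
    intro y hy
    obtain ⟨i, hi⟩ := (cover (hsub hy).1).resolve_left (hsub hy).2
    by_cases hij : i = j
    · subst hij; exact Or.inl hi
    · exact Or.inr (mem_biUnion hij hi)
  have := hpre.subset_left_of_subset_union (isOpen_opn j) hopen hdis hcov ⟨x, hxC, hj⟩
  intro y hy
  exact mem_cls (hsub hy).1 (this hy)

/-- The closed pieces cover the sheet. -/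
theorem sheet_subset : sheet ⊆ ⋃ j, cls j := by
  have hclosed : IsClosed (⋃ j, cls j) := isClosed_iUnion_of_finite isClosed_cls
  have h1 : sheet \ pat.creases ⊆ ⋃ j, cls j := by
    intro x hx
    obtain ⟨j, hj⟩ := (cover hx.1).resolve_left hx.2
    exact mem_iUnion.2 ⟨j, mem_cls hx.1 hj⟩
  intro x hx
  obtain ⟨h1, h2, h3, h4⟩ := hx
  simp only [mem_iUnion]
  rcases le_total (x 1) 0 with hy | hy
  · rcases le_total (1144 * x 0 - 2583 * x 1) 0 with hc | hc
    · refine ⟨1, ⟨h1, h2, h3, h4⟩, ?_⟩
      simp [ineqs, aff]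
      refine ⟨by linarith, by linarith, by linarith, by linarith⟩
    · rcases le_total (112 * x 0 + 15 * x 1) 0 with ha | ha
      · refine ⟨2, ⟨h1, h2, h3, h4⟩, ?_⟩
        simp [ineqs, aff]
        refine ⟨by linarith, by linarith, by linarith, by linarith⟩
      · rcases le_total (12 * (x 0 - 1) + 5 * x 1) 0 with hb | hb
        · refine ⟨3, ⟨h1, h2, h3, h4⟩, ?_⟩
          simp [ineqs, aff]
          refine ⟨by linarith, by linarith, by linarith, by linarith, by linarith⟩
        · refine ⟨5, ⟨h1, h2, h3, h4⟩, ?_⟩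
          simp [ineqs, aff]
          refine ⟨by linarith, by linarith, by linarith, by linarith⟩
  · rcases le_total (24 * x 0 + 7 * x 1) 0 with ha | ha
    · refine ⟨1, ⟨h1, h2, h3, h4⟩, ?_⟩
      simp [ineqs, aff]
      refine ⟨by linarith, by linarith, by linarith, by linarith⟩
    · rcases le_total (8 * (x 0 - 1) + 15 * x 1) 0 with hb | hb
      · refine ⟨0, ⟨h1, h2, h3, h4⟩, ?_⟩
        simp [ineqs, aff]
        refine ⟨by linarith, by linarith, by linarith, by linarith, by linarith⟩
      · rcases le_total (-220 * (x 0 - 1) + 21 * x 1) 0 with hd | hd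
        · refine ⟨5, ⟨h1, h2, h3, h4⟩, ?_⟩
          simp [ineqs, aff]
          refine ⟨by linarith, by linarith, by linarith, by linarith⟩
        · refine ⟨4, ⟨h1, h2, h3, h4⟩, ?_⟩
          simp [ineqs, aff]
          refine ⟨by linarith, by linarith, by linarith, by linarith⟩

end Pool.Agent.TH560.Ori
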