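import Mathlib
import Pool.Agent.TH560.Ori.Piece

set_option autoImplicit false

/-! Relations between the frames of neighbouring faces. -/

namespace Pool.Agent.TH560.Ori

open Set Filter Topology

theorem cross_comb (X Y : Space) (a b c d : ℝ) :
    cross (a • X + b • Y) (c • X + d • Y) = (a * d - b * c) • cross X Y := by
  apply ext_space <;> simp [cross] <;> ring

theorem cross_cross (X Y : Space) :
    cross X (cross X Y) = (inner ℝ X Y) • X - (inner ℝ X X) • Y := by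
  rw [inner_space X X, inner_space X Y]
  apply ext_space <;> simp [cross] <;> ring

theorem inner_cross_left (X Y : Space) : inner ℝ X (cross X Y) = 0 := by
  simp [cross, inner_space]; ring

theorem inner_cross_right (X Y : Space) : inner ℝ Y (cross X Y) = 0 := by
  simp [cross, inner_space]; ring

theorem inner_cross_cross (X Y : Space) :
    inner ℝ (cross X Y) (cross X Y) = inner ℝ X X * inner ℝ Y Y - inner ℝ X Y ^ 2 := by
  rw [inner_space X X, inner_space Y Y, inner_space X Y, inner_space (cross X Y) (cross X Y)]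
  simp only [cross]
  simp; ring

theorem cross_add_right (X Y Z : Space) : cross X (Y + Z) = cross X Y + cross X Z := by
  apply ext_space <;> simp [cross] <;> ring

theorem cross_smul_right (X Y : Space) (a : ℝ) : cross X (a • Y) = a • cross X Y := by
  apply ext_space <;> simp [cross] <;> ring

theorem cross_sub_right (X Y Z : Space) : cross X (Y - Z) = cross X Y - cross X Z := by
  apply ext_space <;> simp [cross] <;> ring

/-- The relation between the frames on the two sides of a crease. -/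
theorem fold_rel (σ : Plane → Space) (p q : Plane) (ρ : ℝ) (hf : FoldAngle σ p q ρ)
    (Kl Kr : Set Plane) (Ol Or Xl Yl Xr Yr : Space)
    (hl : ∀ x ∈ Kl, σ x = Ol + x 0 • Xl + x 1 • Yl)
    (hr : ∀ x ∈ Kr, σ x = Or + x 0 • Xr + x 1 • Yr)
    (m : Plane) (hm : m ∈ openSegment ℝ p q) (hml : m ∈ Kl) (hmr : m ∈ Kr)
    (hp : p ∈ Kl) (hq : q ∈ Kl) (hpq : p ≠ q)
    (hevl : ∀ᶠ s in 𝓝[>] (0 : ℝ), m + s • turn (q - p) ∈ Kl)
    (hevr : ∀ᶠ s in 𝓝[>] (0 : ℝ), m - s • turn (q - p) ∈ Kr) :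
    (-(q 1 - p 1)) • Xr + (q 0 - p 0) • Yr =
      Real.cos ρ • ((-(q 1 - p 1)) • Xl + (q 0 - p 0) • Yl) -
        (Real.sin ρ * ‖q - p‖) • cross Xl Yl := by
  obtain ⟨s, ⟨⟨h1, h2⟩, h3⟩, hs⟩ := (((hevl.and hevr).and (hf m hm)).and
    self_mem_nhdsWithin).exists
  have hs0 : s ≠ 0 := (mem_Ioi.1 hs).ne'
  have hN : 0 < ‖q - p‖ := norm_pos_iff.2 (sub_ne_zero.2 hpq.symm)
  have hN2 : ‖q - p‖ ^ 2 = (q 0 - p 0) ^ 2 + (q 1 - p 1) ^ 2 := by
    rw [normSq_plane]; rfl
  have e1 : σ (m + s • turn (q - p)) - σ m =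
      s • ((-(q 1 - p 1)) • Xl + (q 0 - p 0) • Yl) := by
    rw [hl _ h1, hl _ hml]
    apply ext_space <;> simp [turn] <;> ring
  have e2 : σ (m - s • turn (q - p)) - σ m =
      -(s • ((-(q 1 - p 1)) • Xr + (q 0 - p 0) • Yr)) := by
    rw [hr _ h2, hr _ hmr]
    apply ext_space <;> simp [turn] <;> ring
  have e3 : σ q - σ p = (q 0 - p 0) • Xl + (q 1 - p 1) • Yl := by
    rw [hl _ hq, hl _ hp]
    apply ext_space <;> simp <;> ring
  have e4 : cross (‖q - p‖⁻¹ • (σ q - σ p)) (s • ((-(q 1 - p 1)) • Xl + (q 0 - p 0) • Yl)) =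
      (s * ‖q - p‖) • cross Xl Yl := by
    rw [e3]
    have h5 : ‖q - p‖⁻¹ • ((q 0 - p 0) • Xl + (q 1 - p 1) • Yl) =
        (‖q - p‖⁻¹ * (q 0 - p 0)) • Xl + (‖q - p‖⁻¹ * (q 1 - p 1)) • Yl := by
      rw [smul_add, smul_smul, smul_smul]
    have h6 : s • ((-(q 1 - p 1)) • Xl + (q 0 - p 0) • Yl) =
        (s * (-(q 1 - p 1))) • Xl + (s * (q 0 - p 0)) • Yl := by
      rw [smul_add, smul_smul, smul_smul]
    rw [h5, h6, cross_comb]
    congr 1
    have : ‖q - p‖⁻¹ * (q 0 - p 0) * (s * (q 0 - p 0)) -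
        ‖q - p‖⁻¹ * (q 1 - p 1) * (s * (-(q 1 - p 1))) =
        s * ‖q - p‖⁻¹ * ((q 0 - p 0) ^ 2 + (q 1 - p 1) ^ 2) := by ring
    rw [this, ← hN2]
    field_simp
  rw [e1, e2, e4] at h3
  have h4 : s • ((-(q 1 - p 1)) • Xr + (q 0 - p 0) • Yr) =
      s • (Real.cos ρ • ((-(q 1 - p 1)) • Xl + (q 0 - p 0) • Yl) -
        (Real.sin ρ * ‖q - p‖) • cross Xl Yl) := by
    rw [← neg_inj, h3]
    module
  exact smul_right_injective _ hs0 h4

/-- helper for small neighbourhoods -/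
theorem ev_pos (a c : ℝ) (h : 0 < a) : ∀ᶠ s in 𝓝[>] (0 : ℝ), 0 < a + s * c := by
  have hc : ContinuousAt (fun s : ℝ => a + s * c) 0 := by fun_prop
  have : ∀ᶠ s in 𝓝 (0 : ℝ), 0 < a + s * c := hc.eventually (lt_mem_nhds (by simpa using h))
  exact this.filter_mono nhdsWithin_le_nhds

end Pool.Agent.TH560.Ori
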