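import Mathlib
import Pool.Agent.TH560.Ori.Fold

set_option autoImplicit false

/-! Frames of the faces of a rigid origami with the crease pattern `pat`. -/

namespace Pool.Agent.TH560.Ori

open Set Filter Topology

/-- orthonormal pair -/
def ON (X Y : Space) : Prop := ‖X‖ ^ 2 = 1 ∧ ‖Y‖ ^ 2 = 1 ∧ inner ℝ X Y = 0

theorem ON.xx {X Y : Space} (h : ON X Y) : inner ℝ X X = 1 := by
  rw [real_inner_self_eq_norm_sq]; exact h.1

theorem ON.yy {X Y : Space} (h : ON X Y) : inner ℝ Y Y = 1 := by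
  rw [real_inner_self_eq_norm_sq]; exact h.2.1

theorem ON.yx {X Y : Space} (h : ON X Y) : inner ℝ Y X = 0 := by
  rw [real_inner_comm]; exact h.2.2

theorem ON.inner_comb {X Y : Space} (h : ON X Y) (a b c d : ℝ) :
    inner ℝ (a • X + b • Y) (c • X + d • Y) = a * c + b * d := by
  simp only [inner_add_left, inner_add_right, inner_smul_left, inner_smul_right,
    RCLike.conj_to_real, h.xx, h.yy, h.yx, h.2.2]
  ring

theorem ON.inner_comb3 {X Y : Space} (h : ON X Y) (a b c a' b' c' : ℝ) :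
    inner ℝ (a • X + b • Y + c • cross X Y) (a' • X + b' • Y + c' • cross X Y) =
      a * a' + b * b' + c * c' := by
  have h1 : inner ℝ X (cross X Y) = 0 := inner_cross_left X Y
  have h2 : inner ℝ Y (cross X Y) = 0 := inner_cross_right X Y
  have h3 : inner ℝ (cross X Y) X = 0 := by rw [real_inner_comm]; exact h1
  have h4 : inner ℝ (cross X Y) Y = 0 := by rw [real_inner_comm]; exact h2
  have h5 : inner ℝ (cross X Y) (cross X Y) = 1 := by
    rw [inner_cross_cross, h.xx, h.yy, h.2.2]; ring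
  simp only [inner_add_left, inner_add_right, inner_smul_left, inner_smul_right,
    RCLike.conj_to_real, h.xx, h.yy, h.yx, h.2.2, h1, h2, h3, h4, h5]
  ring

theorem ON.cross_x {X Y : Space} (h : ON X Y) : cross X (cross X Y) = -Y := by
  rw [cross_cross, h.xx, h.2.2]; module

theorem ON.cross_dz {X Y : Space} (h : ON X Y) (a b : ℝ) :
    cross (a • X + b • Y) (cross X Y) = b • X - a • Y := by
  have hxx := h.xx
  have hyy := h.yy
  have hxy := h.2.2
  rw [inner_space] at hxx hyy hxy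
  apply ext_space
  · simp [cross]
    linear_combination (-a * Y 0) * hxx + (b * X 0) * hyy + (a * X 0 - b * Y 0) * hxy
  · simp [cross]
    linear_combination (-a * Y 1) * hxx + (b * X 1) * hyy + (a * X 1 - b * Y 1) * hxy
  · simp [cross]
    linear_combination (-a * Y 2) * hxx + (b * X 2) * hyy + (a * X 2 - b * Y 2) * hxy

/-- The relation between the frames on the two sides of a crease, solved for the left side. -/
theorem fold_inv (Xl Yl Xr Yr : Space) (hl : ON Xl Yl) (d0 d1 N C S : ℝ) (hN : 0 < N)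
    (hN2 : N ^ 2 = d0 ^ 2 + d1 ^ 2) (hCS : C ^ 2 + S ^ 2 = 1)
    (hD : d0 • Xl + d1 • Yl = d0 • Xr + d1 • Yr)
    (hn : (-d1) • Xr + d0 • Yr = C • ((-d1) • Xl + d0 • Yl) - (S * N) • cross Xl Yl) :
    (-d1) • Xl + d0 • Yl = C • ((-d1) • Xr + d0 • Yr) + (S * N) • cross Xr Yr := by
  have e1 : cross (d0 • Xr + d1 • Yr) ((-d1) • Xr + d0 • Yr) = (N ^ 2) • cross Xr Yr := by
    rw [cross_comb]; congr 1; rw [hN2]; ring
  rw [← hD, hn, cross_sub_right, cross_smul_right, cross_smul_right, cross_comb, hl.cross_dz] at e1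
  have e2 : cross Xr Yr = C • cross Xl Yl + (S / N) • ((-d1) • Xl + d0 • Yl) := by
    have hN0 : N ^ 2 ≠ 0 := by positivity
    apply smul_right_injective _ hN0
    simp only
    rw [← e1]
    have e3 : d0 * d0 - d1 * -d1 = N ^ 2 := by rw [hN2]; ring
    rw [e3]
    have e4 : N ^ 2 * (S / N) = S * N := by field_simp
    rw [smul_add, smul_smul (N ^ 2) (S / N), e4]
    module
  rw [hn, e2]
  have e5 : (S * N) * (S / N) = S ^ 2 := by field_simp
  have e6 : C ^ 2 = 1 - S ^ 2 := by linarith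
  rw [smul_add (S * N), smul_smul (S * N) (S / N), e5]
  have e7 : C • (C • ((-d1) • Xl + d0 • Yl) - (S * N) • cross Xl Yl) =
      (C ^ 2) • ((-d1) • Xl + d0 • Yl) - (C * (S * N)) • cross Xl Yl := by module
  rw [e7, e6]
  module

section

variable {σ : Plane → Space} {ρ : Fin 7 → ℝ} (h : pat.IsRigidOrigami σ ρ)

include h

theorem dist_cls {j : Fin 6} {x y : Plane} (hx : x ∈ cls j) (hy : y ∈ cls j) :
    dist (σ x) (σ y) = dist x y := by
  obtain ⟨F, hF, h1, h2⟩ := exists_face hx hy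
  exact h.isometric F hF x h1 y h2

theorem frame (j : Fin 6) (o p q : Plane) (ho : o ∈ cls j) (hp : p ∈ cls j) (hq : q ∈ cls j)
    (hdet : (p 0 - o 0) * (q 1 - o 1) - (p 1 - o 1) * (q 0 - o 0) ≠ 0) :
    ∃ X Y : Space, ON X Y ∧ ∀ x ∈ cls j, σ x = (σ o - o 0 • X - o 1 • Y) + x 0 • X + x 1 • Y := by
  obtain ⟨X, Y, h1, h2, h3, h4⟩ := frame_of_isometric (cls j) σ
    (fun x hx y hy => dist_cls h hx hy) o p q ho hp hq hdet
  refine ⟨X, Y, ⟨h1, h2, h3⟩, fun x hx => ?_⟩
  rw [h4 x hx]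
  module

end

theorem m_vv (j : Fin 6) (hj : j ≠ 4 ∧ j ≠ 5) : vv ∈ cls j := by
  fin_cases j <;> simp at hj <;> simp [cls, ineqs, aff, vv, sheet] <;> norm_num

theorem m_ww (j : Fin 6) (hj : j ≠ 1 ∧ j ≠ 2) : ww ∈ cls j := by
  fin_cases j <;> simp at hj <;> simp [cls, ineqs, aff, ww, sheet] <;> norm_num

theorem m_q1_0 : qq 1 ∈ cls 0 := by simp [cls, ineqs, aff, qq, sheet]; norm_num
theorem m_q1_1 : qq 1 ∈ cls 1 := by simp [cls, ineqs, aff, qq, sheet]; norm_num
theorem m_q2_1 : qq 2 ∈ cls 1 := by simp [cls, ineqs, aff, qq, sheet]; norm_num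
theorem m_q2_2 : qq 2 ∈ cls 2 := by simp [cls, ineqs, aff, qq, sheet]; norm_num
theorem m_q3_2 : qq 3 ∈ cls 2 := by simp [cls, ineqs, aff, qq, sheet]; norm_num
theorem m_q3_3 : qq 3 ∈ cls 3 := by simp [cls, ineqs, aff, qq, sheet]; norm_num
theorem m_q4_0 : qq 4 ∈ cls 0 := by simp [cls, ineqs, aff, qq, sheet]; norm_num
theorem m_q4_4 : qq 4 ∈ cls 4 := by simp [cls, ineqs, aff, qq, sheet]; norm_num
theorem m_q5_4 : qq 5 ∈ cls 4 := by simp [cls, ineqs, aff, qq, sheet]; norm_num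
theorem m_q5_5 : qq 5 ∈ cls 5 := by simp [cls, ineqs, aff, qq, sheet]; norm_num
theorem m_q6_5 : qq 6 ∈ cls 5 := by simp [cls, ineqs, aff, qq, sheet]; norm_num
theorem m_q6_3 : qq 6 ∈ cls 3 := by simp [cls, ineqs, aff, qq, sheet]; norm_num

end Pool.Agent.TH560.Ori
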