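import Mathlib
import Pool.Agent.TH560.Ori.Data

set_option autoImplicit false
set_option linter.unusedTactic false
set_option linter.unreachableTactic false

/-! The faces on the two sides of a crease. -/

namespace Pool.Agent.TH560.Ori

open Set Filter Topology

/-- the face on the left of a crease -/
def lft : Fin 7 → Fin 6 := ![0, 1, 2, 3, 0, 4, 5]

/-- the face on the right of a crease -/
def rgt : Fin 7 → Fin 6 := ![3, 0, 1, 2, 4, 5, 3]

theorem ev_aff (m n : Plane) (hm : m ∈ interior sheet) (j : Fin 6)
    (h : ∀ f ∈ ineqs j, 0 < aff f m ∨ (aff f m = 0 ∧ 0 ≤ f.1 * n 0 + f.2.1 * n 1)) :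
    ∀ᶠ s in 𝓝[>] (0 : ℝ), m + s • n ∈ cls j := by
  have h1 : ∀ᶠ s in 𝓝[>] (0 : ℝ), m + s • n ∈ sheet := by
    have hc : ContinuousAt (fun s : ℝ => m + s • n) 0 := by fun_prop
    have : ∀ᶠ s in 𝓝 (0 : ℝ), m + s • n ∈ interior sheet :=
      hc.eventually (isOpen_interior.mem_nhds (by simpa using hm))
    exact (this.filter_mono nhdsWithin_le_nhds).mono (fun s hs => interior_subset hs)
  have h2 : ∀ᶠ s in 𝓝[>] (0 : ℝ), ∀ f ∈ (ineqs j).toFinset, 0 ≤ aff f (m + s • n) := by
    rw [Filter.eventually_all_finset]
    intro f hf
    have e : ∀ s : ℝ, aff f (m + s • n) = aff f m + s * (f.1 * n 0 + f.2.1 * n 1) := by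
      intro s; simp [aff]; ring
    rcases h f (by simpa using hf) with h3 | ⟨h3, h4⟩
    · exact (ev_pos _ (f.1 * n 0 + f.2.1 * n 1) h3).mono (fun s hs => by rw [e]; exact hs.le)
    · filter_upwards [self_mem_nhdsWithin] with s hs
      rw [e, h3]
      have := mul_nonneg (mem_Ioi.1 hs).le h4
      linarith
  filter_upwards [h1, h2] with s hs1 hs2
  exact ⟨hs1, fun f hf => hs2 f (by simpa using hf)⟩

theorem ev_left (i : Fin 7) (m : Plane) (hm : m ∈ openSegment ℝ (pp i) (qq i)) :
    ∀ᶠ s in 𝓝[>] (0 : ℝ), m + s • turn (qq i - pp i) ∈ cls (lft i) := by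
  have hmi := openSegment_sub i hm
  apply ev_aff m _ hmi
  rw [interior_sheet] at hmi
  obtain ⟨-, -, h3, h4⟩ := hmi
  obtain ⟨t, ht0, ht1, e0, e1⟩ := mem_openSegment_coord hm
  fin_cases i <;> simp [pp, qq, vv, ww] at e0 e1 <;>
    simp [lft, ineqs, aff, pp, qq, vv, ww, turn, -not_lt] <;>
    refine ⟨?_, ?_⟩ <;>
    first
    | (left; linarith)
    | (right; linarith)
    | (right; constructor <;> linarith)
    | (refine ⟨?_, ?_⟩ <;>
        first
        | (left; linarith)
        | (right; linarith)
        | (right; constructor <;> linarith)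
        | (refine ⟨?_, ?_⟩ <;>
          first
          | (left; linarith)
          | (right; linarith)
          | (right; constructor <;> linarith)
          | (refine ⟨?_, ?_⟩ <;>
              first
              | (left; linarith)
              | (right; linarith)
              | (right; constructor <;> linarith))))

theorem ev_right (i : Fin 7) (m : Plane) (hm : m ∈ openSegment ℝ (pp i) (qq i)) :
    ∀ᶠ s in 𝓝[>] (0 : ℝ), m - s • turn (qq i - pp i) ∈ cls (rgt i) := by
  have hmi := openSegment_sub i hm
  have key : ∀ᶠ s in 𝓝[>] (0 : ℝ), m + s • (-turn (qq i - pp i)) ∈ cls (rgt i) := by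
    apply ev_aff m _ hmi
    rw [interior_sheet] at hmi
    obtain ⟨-, -, h3, h4⟩ := hmi
    obtain ⟨t, ht0, ht1, e0, e1⟩ := mem_openSegment_coord hm
    fin_cases i <;> simp [pp, qq, vv, ww] at e0 e1 <;>
      simp [rgt, ineqs, aff, pp, qq, vv, ww, turn, -not_lt] <;>
      refine ⟨?_, ?_⟩ <;>
      first
      | (left; linarith)
      | (right; linarith)
      | (right; constructor <;> linarith)
      | (refine ⟨?_, ?_⟩ <;>
          first
          | (left; linarith)
          | (right; linarith)
          | (right; constructor <;> linarith)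
          | (refine ⟨?_, ?_⟩ <;>
            first
            | (left; linarith)
            | (right; linarith)
            | (right; constructor <;> linarith)
            | (refine ⟨?_, ?_⟩ <;>
                first
                | (left; linarith)
                | (right; linarith)
                | (right; constructor <;> linarith))))

  filter_upwards [key] with s hs
  rwa [smul_neg, ← sub_eq_add_neg] at hs

theorem seg_left (i : Fin 7) : segment ℝ (pp i) (qq i) ⊆ cls (lft i) := by
  have h : openSegment ℝ (pp i) (qq i) ⊆ cls (lft i) := by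
    intro m hm
    have h1 := ev_left i m hm
    have h2 : Tendsto (fun s : ℝ => m + s • turn (qq i - pp i)) (𝓝[>] 0) (𝓝 m) := by
      have hc : ContinuousAt (fun s : ℝ => m + s • turn (qq i - pp i)) 0 := by fun_prop
      have := hc.tendsto
      simp only [zero_smul, add_zero] at this
      exact this.mono_left nhdsWithin_le_nhds
    exact (isClosed_cls _).mem_of_tendsto h2 h1
  exact segment_subset_closure_openSegment.trans (closure_minimal h (isClosed_cls _))

theorem seg_right (i : Fin 7) : segment ℝ (pp i) (qq i) ⊆ cls (rgt i) := by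
  have h : openSegment ℝ (pp i) (qq i) ⊆ cls (rgt i) := by
    intro m hm
    have h1 := ev_right i m hm
    have h2 : Tendsto (fun s : ℝ => m - s • turn (qq i - pp i)) (𝓝[>] 0) (𝓝 m) := by
      have hc : ContinuousAt (fun s : ℝ => m - s • turn (qq i - pp i)) 0 := by fun_prop
      have := hc.tendsto
      simp only [zero_smul, sub_zero] at this
      exact this.mono_left nhdsWithin_le_nhds
    exact (isClosed_cls _).mem_of_tendsto h2 h1
  exact segment_subset_closure_openSegment.trans (closure_minimal h (isClosed_cls _))

end Pool.Agent.TH560.Ori
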