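import Mathlib
import Pool.Agent.TH560.Ori.Side

set_option autoImplicit false
set_option linter.unusedSimpArgs false
set_option linter.unnecessarySeqFocus false

/-! Construction of rigid origami maps from frames. -/

namespace Pool.Agent.TH560.Ori

open Set Filter Topology

/-- Where two closed pieces meet. -/
theorem inter_lt (i j : Fin 6) (hij : i < j) (x : Plane) (hi : x ∈ cls i) (hj : x ∈ cls j) :
    (∃ k : Fin 7, (i = lft k ∧ j = rgt k ∨ i = rgt k ∧ j = lft k) ∧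
      ∃ t : ℝ, x 0 = pp k 0 + t * (qq k 0 - pp k 0) ∧ x 1 = pp k 1 + t * (qq k 1 - pp k 1)) ∨
    ((x 0 = 0 ∧ x 1 = 0) ∧ i ≤ 3 ∧ j ≤ 3) ∨
    ((x 0 = 1 ∧ x 1 = 0) ∧ (i = 0 ∨ i = 3) ∧ (j = 4 ∨ j = 5)) := by
  obtain ⟨⟨h1, h2, h3, h4⟩, hi⟩ := hi
  obtain ⟨-, hj⟩ := hj
  fin_cases i <;> fin_cases j <;> simp at hij <;> simp [ineqs, aff] at hi hj
  -- 0 1
  · left; refine ⟨1, by simp [lft, rgt], 10 * x 1, ?_, ?_⟩ <;>
      simp [pp, qq, vv] <;> linarith [hi.1, hi.2.1, hi.2.2.1, hj.1, hj.2.1]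
  -- 0 2
  · right; left; refine ⟨⟨?_, ?_⟩, by decide, by decide⟩ <;>
      linarith [hi.1, hi.2.1, hi.2.2.1, hj.1, hj.2.1]
  -- 0 3
  · left; refine ⟨0, by simp [lft, rgt], x 0, ?_, ?_⟩ <;>
      simp [pp, qq, vv, ww] <;> linarith [hi.1, hi.2.1, hi.2.2.1, hj.1, hj.2.1]
  -- 0 4
  · left; refine ⟨4, by simp [lft, rgt], 10 * x 1, ?_, ?_⟩ <;>
      simp [pp, qq, ww] <;> linarith [hi.1, hi.2.1, hi.2.2.1, hj.1, hj.2.1]
  -- 0 5
  · right; right; refine ⟨⟨?_, ?_⟩, by decide, by decide⟩ <;>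
      linarith [hi.1, hi.2.1, hi.2.2.1, hj.1, hj.2.1]
  -- 1 2
  · left; refine ⟨2, by simp [lft, rgt], -(10 * x 1), ?_, ?_⟩ <;>
      simp [pp, qq, vv] <;> linarith [hi.1, hi.2.1, hj.1, hj.2.1]
  -- 1 3
  · right; left; refine ⟨⟨?_, ?_⟩, by decide, by decide⟩ <;>
      linarith [hi.1, hi.2.1, hj.1, hj.2.1, hj.2.2.1]
  -- 1 4
  · exfalso; linarith [hi.1, hi.2.1, hj.1, hj.2.1]
  -- 1 5
  · exfalso; linarith [hi.1, hi.2.1, hj.1, hj.2.1]
  -- 2 3
  · left; refine ⟨3, by simp [lft, rgt], -(10 * x 1), ?_, ?_⟩ <;>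
      simp [pp, qq, vv] <;> linarith [hi.1, hi.2.1, hj.1, hj.2.1]
  -- 2 4
  · exfalso; linarith [hi.1, hi.2.1, hj.1, hj.2.1]
  -- 2 5
  · exfalso; linarith [hi.1, hi.2.1, hj.1, hj.2.1]
  -- 3 4
  · right; right; refine ⟨⟨?_, ?_⟩, by decide, by decide⟩ <;>
      linarith [hi.1, hi.2.1, hi.2.2.1, hj.1, hj.2.1]
  -- 3 5
  · left; refine ⟨6, by simp [lft, rgt], -(10 * x 1), ?_, ?_⟩ <;>
      simp [pp, qq, ww] <;> linarith [hi.1, hi.2.1, hi.2.2.1, hj.1, hj.2.1]
  -- 4 5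
  · left; refine ⟨5, by simp [lft, rgt], 10 * x 1, ?_, ?_⟩ <;>
      simp [pp, qq, ww] <;> linarith [hi.1, hi.2.1, hj.1, hj.2.1]

/-- the affine map of a face -/
noncomputable def amap (O X Y : Fin 6 → Space) (j : Fin 6) (x : Plane) : Space :=
  O j + x 0 • X j + x 1 • Y j

theorem compat (O X Y : Fin 6 → Space)
    (hp : ∀ k, amap O X Y (lft k) (pp k) = amap O X Y (rgt k) (pp k))
    (hq : ∀ k, amap O X Y (lft k) (qq k) = amap O X Y (rgt k) (qq k))
    (i j : Fin 6) (x : Plane) (hi : x ∈ cls i) (hj : x ∈ cls j) :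
    amap O X Y i x = amap O X Y j x := by
  have seg : ∀ k : Fin 7, ∀ t : ℝ, x 0 = pp k 0 + t * (qq k 0 - pp k 0) →
      x 1 = pp k 1 + t * (qq k 1 - pp k 1) →
      amap O X Y (lft k) x = amap O X Y (rgt k) x := by
    intro k t e0 e1
    have h1 := hp k
    have h2 := hq k
    simp only [amap] at h1 h2 ⊢
    rw [e0, e1]
    linear_combination (norm := module) (1 - t) • h1 + t • h2
  have vp : ∀ j : Fin 6, j ≤ 3 → amap O X Y j vv = amap O X Y 0 vv := by
    have k0 := hp 0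
    have k1 := hp 1
    have k2 := hp 2
    simp only [pp, lft, rgt] at k0 k1 k2
    intro j hj
    fin_cases j <;> simp at hj ⊢
    · exact k1
    · exact k2.trans k1
    · exact k0.symm
  have wp : ∀ j : Fin 6, (j = 0 ∨ j = 3 ∨ j = 4 ∨ j = 5) → amap O X Y j ww = amap O X Y 0 ww := by
    have k0 := hq 0
    have k4 := hp 4
    have k5 := hp 5
    have k6 := hp 6
    simp only [pp, qq, lft, rgt] at k0 k4 k5 k6
    intro j hj
    rcases hj with rfl | rfl | rfl | rfl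
    · rfl
    · exact k0.symm
    · exact k4.symm
    · exact k5.symm.trans k4.symm
  have main : ∀ i j : Fin 6, i < j → x ∈ cls i → x ∈ cls j → amap O X Y i x = amap O X Y j x := by
    intro i j hij hi hj
    rcases inter_lt i j hij x hi hj with ⟨k, hk, t, e0, e1⟩ | ⟨⟨e0, e1⟩, h1, h2⟩ |
      ⟨⟨e0, e1⟩, h1, h2⟩
    · rcases hk with ⟨rfl, rfl⟩ | ⟨rfl, rfl⟩
      · exact seg k t e0 e1
      · exact (seg k t e0 e1).symm
    · have hx : x = vv := ext_plane (by simpa [vv] using e0) (by simpa [vv] using e1)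
      rw [hx, vp i h1, vp j h2]
    · have hx : x = ww := ext_plane (by simpa [ww] using e0) (by simpa [ww] using e1)
      rw [hx, wp i (by tauto), wp j (by tauto)]
  rcases lt_trichotomy i j with h | h | h
  · exact main i j h hi hj
  · rw [h]
  · exact (main j i h hj hi).symm

theorem dist_amap (O X Y : Fin 6 → Space) (j : Fin 6) (h : ON (X j) (Y j)) (x y : Plane) :
    dist (amap O X Y j x) (amap O X Y j y) = dist x y := by
  rw [dist_eq_norm, dist_eq_norm]
  have e : amap O X Y j x - amap O X Y j y = (x 0 - y 0) • X j + (x 1 - y 1) • Y j := by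
    simp only [amap]; module
  have h1 : ‖amap O X Y j x - amap O X Y j y‖ ^ 2 = ‖x - y‖ ^ 2 := by
    rw [e, ← real_inner_self_eq_norm_sq, h.inner_comb, normSq_plane]
    simp only [PiLp.sub_apply]; ring
  exact (sq_eq_sq₀ (norm_nonneg _) (norm_nonneg _)).1 h1

/-- Construction of a rigid origami map (apart from the condition of no self-crossing). -/
theorem build (O X Y : Fin 6 → Space) (ρ : Fin 7 → ℝ) (hON : ∀ j, ON (X j) (Y j))
    (hp : ∀ k, amap O X Y (lft k) (pp k) = amap O X Y (rgt k) (pp k))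
    (hq : ∀ k, amap O X Y (lft k) (qq k) = amap O X Y (rgt k) (qq k))
    (hf : ∀ k, (-(qq k 1 - pp k 1)) • X (rgt k) + (qq k 0 - pp k 0) • Y (rgt k) =
      Real.cos (ρ k) • ((-(qq k 1 - pp k 1)) • X (lft k) + (qq k 0 - pp k 0) • Y (lft k)) -
        (Real.sin (ρ k) * ‖qq k - pp k‖) • cross (X (lft k)) (Y (lft k)))
    (hlim : ∀ σ : Plane → Space, (∀ j, ∀ x ∈ cls j, σ x = amap O X Y j x) →
      ContinuousOn σ sheet → InjOn σ sheet) :
    ∃ σ, pat.IsRigidOrigami σ ρ := by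
  classical
  let σ : Plane → Space := fun x => if h : ∃ j, x ∈ cls j then amap O X Y h.choose x else 0
  have hσ : ∀ j, ∀ x ∈ cls j, σ x = amap O X Y j x := by
    intro j x hx
    have h : ∃ j, x ∈ cls j := ⟨j, hx⟩
    simp only [σ]
    rw [dif_pos h]
    exact compat O X Y hp hq _ _ x h.choose_spec hx
  have hcont : ContinuousOn σ sheet := by
    have h1 : ContinuousOn σ (⋃ j, cls j) := by
      apply (locallyFinite_of_finite cls).continuousOn_iUnion isClosed_cls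
      intro j
      have h2 : Continuous (amap O X Y j) := by unfold amap; fun_prop
      exact h2.continuousOn.congr (fun x hx => hσ j x hx)
    exact h1.mono sheet_subset
  have hinj := hlim σ hσ hcont
  refine ⟨σ, hcont, ?_, ?_, ?_⟩
  · intro F hF x hx y hy
    obtain ⟨j, hj⟩ := face_subset hF
    rw [hσ j x (hj hx), hσ j y (hj hy)]
    exact dist_amap O X Y j (hON j) x y
  · intro k m hm
    filter_upwards [ev_left k m hm, ev_right k m hm] with s hs1 hs2
    change σ (m - s • turn (qq k - pp k)) - σ m = _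
    change _ = -(Real.cos (ρ k) • (σ (m + s • turn (qq k - pp k)) - σ m)) +
        Real.sin (ρ k) • cross (‖qq k - pp k‖⁻¹ • (σ (qq k) - σ (pp k)))
          (σ (m + s • turn (qq k - pp k)) - σ m)
    have hml : m ∈ cls (lft k) := seg_left k (openSegment_subset_segment ℝ _ _ hm)
    have hmr : m ∈ cls (rgt k) := seg_right k (openSegment_subset_segment ℝ _ _ hm)
    have hpl : pp k ∈ cls (lft k) := seg_left k (left_mem_segment ℝ _ _)
    have hql : qq k ∈ cls (lft k) := seg_left k (right_mem_segment ℝ _ _)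
    have hN : 0 < ‖qq k - pp k‖ := norm_pos_iff.2 (sub_ne_zero.2 (pat.p_ne_q k).symm)
    have hN2 : ‖qq k - pp k‖ ^ 2 = (qq k 0 - pp k 0) ^ 2 + (qq k 1 - pp k 1) ^ 2 := by
      rw [normSq_plane]; rfl
    have e1 : σ (m + s • turn (qq k - pp k)) - σ m =
        s • ((-(qq k 1 - pp k 1)) • X (lft k) + (qq k 0 - pp k 0) • Y (lft k)) := by
      rw [hσ _ _ hs1, hσ _ _ hml]
      simp only [amap]
      apply ext_space <;> simp [turn] <;> ring
    have e2 : σ (m - s • turn (qq k - pp k)) - σ m =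
        -(s • ((-(qq k 1 - pp k 1)) • X (rgt k) + (qq k 0 - pp k 0) • Y (rgt k))) := by
      rw [hσ _ _ hs2, hσ _ _ hmr]
      simp only [amap]
      apply ext_space <;> simp [turn] <;> ring
    have e3 : σ (qq k) - σ (pp k) =
        (qq k 0 - pp k 0) • X (lft k) + (qq k 1 - pp k 1) • Y (lft k) := by
      rw [hσ _ _ hql, hσ _ _ hpl]
      simp only [amap]
      module
    have e4 : cross (‖qq k - pp k‖⁻¹ • (σ (qq k) - σ (pp k)))
        (s • ((-(qq k 1 - pp k 1)) • X (lft k) + (qq k 0 - pp k 0) • Y (lft k))) =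
        (s * ‖qq k - pp k‖) • cross (X (lft k)) (Y (lft k)) := by
      rw [e3]
      have h5 : ‖qq k - pp k‖⁻¹ • ((qq k 0 - pp k 0) • X (lft k) + (qq k 1 - pp k 1) • Y (lft k)) =
          (‖qq k - pp k‖⁻¹ * (qq k 0 - pp k 0)) • X (lft k) +
            (‖qq k - pp k‖⁻¹ * (qq k 1 - pp k 1)) • Y (lft k) := by
        rw [smul_add, smul_smul, smul_smul]
      have h6 : s • ((-(qq k 1 - pp k 1)) • X (lft k) + (qq k 0 - pp k 0) • Y (lft k)) =
          (s * (-(qq k 1 - pp k 1))) • X (lft k) + (s * (qq k 0 - pp k 0)) • Y (lft k) := by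
        rw [smul_add, smul_smul, smul_smul]
      rw [h5, h6, cross_comb]
      congr 1
      have : ‖qq k - pp k‖⁻¹ * (qq k 0 - pp k 0) * (s * (qq k 0 - pp k 0)) -
          ‖qq k - pp k‖⁻¹ * (qq k 1 - pp k 1) * (s * (-(qq k 1 - pp k 1))) =
          s * ‖qq k - pp k‖⁻¹ * ((qq k 0 - pp k 0) ^ 2 + (qq k 1 - pp k 1) ^ 2) := by ring
      rw [this, ← hN2]
      field_simp
    rw [e1, e2, e4, hf k]
    module
  · intro ε hε
    exact ⟨σ, hcont, hinj, fun x _ => by rw [dist_self]; exact hε⟩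

end Pool.Agent.TH560.Ori
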