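import Mathlib
import Pool.Agent.TH560.Ori.Build

set_option autoImplicit false

/-! The one-parameter family of folded states. -/

namespace Pool.Agent.TH560.Ori

open Set Filter Topology

/-- cosine of the double arc tangent -/
theorem cos_two_arctan (u : ℝ) : Real.cos (2 * Real.arctan u) = (1 - u ^ 2) / (1 + u ^ 2) := by
  have h : 0 < 1 + u ^ 2 := by positivity
  rw [Real.cos_two_mul, Real.cos_sq_arctan]
  field_simp
  ring

theorem sin_two_arctan (u : ℝ) : Real.sin (2 * Real.arctan u) = 2 * u / (1 + u ^ 2) := by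
  have h : 0 < 1 + u ^ 2 := by positivity
  rw [Real.sin_two_mul, Real.sin_arctan, Real.cos_arctan]
  have h2 : √(1 + u ^ 2) * √(1 + u ^ 2) = 1 + u ^ 2 := Real.mul_self_sqrt h.le
  have h3 : √(1 + u ^ 2) ≠ 0 := (Real.sqrt_pos.2 h).ne'
  have h4 : 2 * (u / √(1 + u ^ 2)) * (1 / √(1 + u ^ 2)) =
      2 * u / (√(1 + u ^ 2) * √(1 + u ^ 2)) := by field_simp
  rw [h4, h2]

/-- multipliers -/
noncomputable def mul : Fin 7 → ℝ := ![1, 13, -1, 13, -(5 / 7), 1, 5 / 7]

/-- the folding angles at parameter `t` -/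
noncomputable def ang (t : ℝ) (i : Fin 7) : ℝ := 2 * Real.arctan (mul i * t)

noncomputable def ce (t : ℝ) : ℝ := (1 - t ^ 2) / (1 + t ^ 2)
noncomputable def se (t : ℝ) : ℝ := 2 * t / (1 + t ^ 2)
noncomputable def ca (t : ℝ) : ℝ := (1 - 169 * t ^ 2) / (1 + 169 * t ^ 2)
noncomputable def sa (t : ℝ) : ℝ := 26 * t / (1 + 169 * t ^ 2)
noncomputable def cb (t : ℝ) : ℝ := (49 - 25 * t ^ 2) / (49 + 25 * t ^ 2)
noncomputable def sb (t : ℝ) : ℝ := 70 * t / (49 + 25 * t ^ 2)

theorem cos_ang (t : ℝ) : ∀ i, Real.cos (ang t i) = ![ce t, ca t, ce t, ca t, cb t, ce t, cb t] i := by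
  intro i
  have h1 : 0 < 1 + t ^ 2 := by positivity
  have h2 : 0 < 1 + 169 * t ^ 2 := by positivity
  have h3 : 0 < 49 + 25 * t ^ 2 := by positivity
  have h4 : 0 < 1 + (13 * t) ^ 2 := by positivity
  have h5 : 0 < 1 + (5 / 7 * t) ^ 2 := by positivity
  unfold ang
  rw [cos_two_arctan]
  fin_cases i <;> simp [mul, ce, ca, cb] <;> field_simp <;> ring

theorem sin_ang (t : ℝ) : ∀ i, Real.sin (ang t i) =
    ![se t, sa t, -se t, sa t, -sb t, se t, sb t] i := by
  intro i
  have h1 : 0 < 1 + t ^ 2 := by positivity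
  have h2 : 0 < 1 + 169 * t ^ 2 := by positivity
  have h3 : 0 < 49 + 25 * t ^ 2 := by positivity
  have h4 : 0 < 1 + (13 * t) ^ 2 := by positivity
  have h5 : 0 < 1 + (5 / 7 * t) ^ 2 := by positivity
  unfold ang
  rw [sin_two_arctan]
  fin_cases i <;> simp [mul, se, sa, sb] <;> field_simp <;> ring

/-- first vectors of the frames -/
noncomputable def fX (t : ℝ) : Fin 6 → Space :=
  ![!₂[1, 0, 0],
    !₂[49 / 625 + 576 / 625 * ca t, -(168 / 625) + 168 / 625 * ca t, -(24 / 25 * sa t)],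
    !₂[(225 + 12544 * ca t) / 12769,
      (-1680 * ce t + 1680 * ca t * ce t - 12656 * sa t * se t) / 12769,
      (1680 * se t - 1680 * ca t * se t - 12656 * sa t * ce t) / 12769],
    !₂[1, 0, 0],
    !₂[225 / 289 + 64 / 289 * cb t, -(120 / 289) + 120 / 289 * cb t, -(8 / 17 * sb t)],
    !₂[(25 + 144 * cb t) / 169, (-60 * ce t + 60 * cb t * ce t + 156 * sb t * se t) / 169,
      (60 * se t - 60 * cb t * se t + 156 * sb t * ce t) / 169]]

/-- second vectors of the frames -/
noncomputable def fY (t : ℝ) : Fin 6 → Space :=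
  ![!₂[0, 1, 0],
    !₂[-(168 / 625) + 168 / 625 * ca t, 576 / 625 + 49 / 625 * ca t, -(7 / 25 * sa t)],
    !₂[(-1680 + 1680 * ca t) / 12769,
      (12544 * ce t + 225 * ca t * ce t - 1695 * sa t * se t) / 12769,
      (-12544 * se t - 225 * ca t * se t - 1695 * sa t * ce t) / 12769],
    !₂[0, ce t, -se t],
    !₂[-(120 / 289) + 120 / 289 * cb t, 64 / 289 + 225 / 289 * cb t, -(15 / 17 * sb t)],
    !₂[(-60 + 60 * cb t) / 169, (144 * ce t + 25 * cb t * ce t + 65 * sb t * se t) / 169,
      (-144 * se t - 25 * cb t * se t + 65 * sb t * ce t) / 169]]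

/-- base points -/
noncomputable def fO (t : ℝ) : Fin 6 → Space :=
  ![0, 0, 0, 0, fX t 0 - fX t 4, fX t 0 - fX t 5]

theorem sq_e (t : ℝ) : ce t ^ 2 + se t ^ 2 = 1 := by
  have h1 : 0 < 1 + t ^ 2 := by positivity
  unfold ce se; field_simp; ring

theorem sq_a (t : ℝ) : ca t ^ 2 + sa t ^ 2 = 1 := by
  have h1 : 0 < 1 + 169 * t ^ 2 := by positivity
  unfold ca sa; field_simp; ring

theorem sq_b (t : ℝ) : cb t ^ 2 + sb t ^ 2 = 1 := by
  have h1 : 0 < 49 + 25 * t ^ 2 := by positivity
  unfold cb sb; field_simp; ring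

theorem frame_ON (t : ℝ) (j : Fin 6) : ON (fX t j) (fY t j) := by
  have he := sq_e t
  have ha := sq_a t
  have hb := sq_b t
  unfold ON
  rw [normSq_space, normSq_space, inner_space]
  fin_cases j
  · simp [fX, fY]
  · simp only [fX, fY]
    generalize ca t = c at *
    generalize sa t = s at *
    simp
    refine ⟨?_, ?_, ?_⟩
    · linear_combination (576 / 625) * ha
    · linear_combination (49 / 625) * ha
    · linear_combination (168 / 625) * ha
  · simp only [fX, fY]
    generalize ca t = c at *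
    generalize sa t = s at *
    generalize ce t = d at *
    generalize se t = u at *
    simp
    refine ⟨?_, ?_, ?_⟩
    · linear_combination ((1680 ^ 2 * (1 - c) ^ 2 + 12656 ^ 2 * s ^ 2) / 12769 ^ 2) * he +
        (12656 ^ 2 / 12769 ^ 2) * ha
    · linear_combination (((12544 + 225 * c) ^ 2 + 1695 ^ 2 * s ^ 2) / 12769 ^ 2) * he +
        (1695 ^ 2 / 12769 ^ 2) * ha
    · linear_combination ((1680 * (c - 1) * (12544 + 225 * c) + 21451920 * s ^ 2) /
        12769 ^ 2) * he + (21451920 / 12769 ^ 2) * ha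
  · simp only [fX, fY]
    generalize ce t = d at *
    generalize se t = u at *
    simp
    linear_combination he
  · simp only [fX, fY]
    generalize cb t = c at *
    generalize sb t = s at *
    simp
    refine ⟨?_, ?_, ?_⟩
    · linear_combination (64 / 289) * hb
    · linear_combination (225 / 289) * hb
    · linear_combination (120 / 289) * hb
  · simp only [fX, fY]
    generalize cb t = c at *
    generalize sb t = s at *
    generalize ce t = d at *
    generalize se t = u at *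
    simp
    refine ⟨?_, ?_, ?_⟩
    · linear_combination ((3600 * (c - 1) ^ 2 + 24336 * s ^ 2) / 28561) * he +
        (24336 / 28561) * hb
    · linear_combination (((144 + 25 * c) ^ 2 + 4225 * s ^ 2) / 28561) * he +
        (4225 / 28561) * hb
    · linear_combination ((60 * (c - 1) * (144 + 25 * c) + 10140 * s ^ 2) / 28561) * he +
        (10140 / 28561) * hb

/-- closure at the first vertex -/
theorem close_v (t : ℝ) :
    (-2583 * fX t 1 0 - 1144 * fY t 1 0 = -2583 * fX t 2 0 - 1144 * fY t 2 0) ∧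
    (-2583 * fX t 1 1 - 1144 * fY t 1 1 = -2583 * fX t 2 1 - 1144 * fY t 2 1) ∧
    (-2583 * fX t 1 2 - 1144 * fY t 1 2 = -2583 * fX t 2 2 - 1144 * fY t 2 2) := by
  have h1 : 0 < 1 + t ^ 2 := by positivity
  have h2 : 0 < 1 + 169 * t ^ 2 := by positivity
  refine ⟨?_, ?_, ?_⟩
  · simp [fX, fY]
    unfold ca
    field_simp
    ring
  · simp [fX, fY]
    unfold ca ce sa se
    field_simp
    ring
  · simp [fX, fY]
    unfold ca ce sa se
    field_simp
    ring

/-- closure at the second vertex -/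
theorem close_w (t : ℝ) :
    (21 * fX t 4 0 + 220 * fY t 4 0 = 21 * fX t 5 0 + 220 * fY t 5 0) ∧
    (21 * fX t 4 1 + 220 * fY t 4 1 = 21 * fX t 5 1 + 220 * fY t 5 1) ∧
    (21 * fX t 4 2 + 220 * fY t 4 2 = 21 * fX t 5 2 + 220 * fY t 5 2) := by
  have h1 : 0 < 1 + t ^ 2 := by positivity
  have h2 : 0 < 49 + 25 * t ^ 2 := by positivity
  refine ⟨?_, ?_, ?_⟩
  · simp [fX, fY]
    unfold cb
    field_simp
    ring
  · simp [fX, fY]
    unfold cb ce sb se
    field_simp
    ring
  · simp [fX, fY]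
    unfold cb ce sb se
    field_simp
    ring

end Pool.Agent.TH560.Ori
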