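import Mathlib
import Pool.Agent.TH560.Ori.Frames

set_option autoImplicit false
set_option linter.unusedSimpArgs false
set_option linter.unnecessarySeqFocus false

/-! The one-parameter family of folded states: the conditions at the creases. -/

namespace Pool.Agent.TH560.Ori

open Set Filter Topology

theorem fam_p (t : ℝ) (k : Fin 7) :
    amap (fO t) (fX t) (fY t) (lft k) (pp k) = amap (fO t) (fX t) (fY t) (rgt k) (pp k) := by
  fin_cases k <;> simp [amap, lft, rgt, pp, fO, vv, ww] <;> simp [fX]

theorem fam_q (t : ℝ) (k : Fin 7) :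
    amap (fO t) (fX t) (fY t) (lft k) (qq k) = amap (fO t) (fX t) (fY t) (rgt k) (qq k) := by
  obtain ⟨v0, v1, v2⟩ := close_v t
  obtain ⟨w0, w1, w2⟩ := close_w t
  fin_cases k
  · simp [amap, lft, rgt, qq, fO, ww, fX]
  · apply ext_space <;> simp [amap, lft, rgt, qq, fO] <;> simp [fX, fY] <;> ring
  · apply ext_space <;> simp [amap, lft, rgt, qq, fO]
    · linarith
    · linarith
    · linarith
  · apply ext_space <;> simp [amap, lft, rgt, qq, fO] <;> simp [fX, fY] <;> ring
  · apply ext_space <;> simp [amap, lft, rgt, qq, fO] <;> simp [fX, fY] <;> ring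
  · apply ext_space <;> simp [amap, lft, rgt, qq, fO]
    · linarith
    · linarith
    · linarith
  · apply ext_space <;> simp [amap, lft, rgt, qq, fO] <;> simp [fX, fY] <;> ring

theorem norm_d (k : Fin 7) : ‖qq k - pp k‖ =
    ![1, 25 / 240, 2825 / 11440, 113 / 1120, 17 / 80, 221 / 2200, 13 / 120] k := by
  have h := normSq_plane (qq k - pp k)
  have h0 : 0 ≤ ‖qq k - pp k‖ := norm_nonneg _
  have h1 : (qq k - pp k) 0 = qq k 0 - pp k 0 := rfl
  have h2 : (qq k - pp k) 1 = qq k 1 - pp k 1 := rfl
  rw [h1, h2] at h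
  generalize ‖qq k - pp k‖ = N at *
  fin_cases k <;> simp [pp, qq, vv, ww] at h ⊢ <;> first | nlinarith | skip
  rcases h with h | h
  · exact h
  · linarith

theorem fam_f (t : ℝ) (k : Fin 7) :
    (-(qq k 1 - pp k 1)) • fX t (rgt k) + (qq k 0 - pp k 0) • fY t (rgt k) =
      Real.cos (ang t k) • ((-(qq k 1 - pp k 1)) • fX t (lft k) +
        (qq k 0 - pp k 0) • fY t (lft k)) -
        (Real.sin (ang t k) * ‖qq k - pp k‖) • cross (fX t (lft k)) (fY t (lft k)) := by
  have h1 : 0 < 1 + t ^ 2 := by positivity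
  have h2 : 0 < 1 + 169 * t ^ 2 := by positivity
  have h3 : 0 < 49 + 25 * t ^ 2 := by positivity
  rw [norm_d, cos_ang, sin_ang]
  fin_cases k
  · apply ext_space <;> simp [cross, fX, fY, lft, rgt, pp, qq, vv, ww]
  · apply ext_space <;> simp [cross, fX, fY, lft, rgt, pp, qq, vv] <;>
      (try simp only [ca, sa, ce, se]) <;>
      field_simp <;> ring
  · apply ext_space <;> simp [cross, fX, fY, lft, rgt, pp, qq, vv] <;>
      (try simp only [ca, sa, cb, sb, ce, se]) <;>
      field_simp <;> ring
  · apply ext_space <;> simp [cross, fX, fY, lft, rgt, pp, qq, vv] <;>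
      (try simp only [ca, sa, cb, sb, ce, se]) <;>
      field_simp <;> ring
  · apply ext_space <;> simp [cross, fX, fY, lft, rgt, pp, qq, ww] <;>
      (try simp only [ca, sa, cb, sb, ce, se]) <;>
      field_simp <;> ring
  · apply ext_space <;> simp [cross, fX, fY, lft, rgt, pp, qq, ww] <;>
      (try simp only [ca, sa, cb, sb, ce, se]) <;>
      field_simp <;> ring
  · apply ext_space <;> simp [cross, fX, fY, lft, rgt, pp, qq, ww] <;>
      (try simp only [ca, sa, cb, sb, ce, se]) <;>
      field_simp <;> ring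

end Pool.Agent.TH560.Ori
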