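import Mathlib
import Pool.Agent.TH560.Ori.Frames2

set_option autoImplicit false

/-! The folded state at parameter `t = 2` has no self-crossing. -/

namespace Pool.Agent.TH560.Ori

open Set Filter Topology

theorem v_ce : ce 2 = -(3 / 5) := by unfold ce; norm_num
theorem v_se : se 2 = 4 / 5 := by unfold se; norm_num
theorem v_ca : ca 2 = -(675 / 677) := by unfold ca; norm_num
theorem v_sa : sa 2 = 52 / 677 := by unfold sa; norm_num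
theorem v_cb : cb 2 = -(51 / 149) := by unfold cb; norm_num
theorem v_sb : sb 2 = 140 / 149 := by unfold sb; norm_num

theorem co0 (x : Plane) :
    amap (fO 2) (fX 2) (fY 2) 0 x 0 = 0 + (1) * x 0 + (0) * x 1 ∧
    amap (fO 2) (fX 2) (fY 2) 0 x 1 = 0 + (0) * x 0 + (1) * x 1 ∧
    amap (fO 2) (fX 2) (fY 2) 0 x 2 = 0 + (0) * x 0 + (0) * x 1 := by
  refine ⟨?_, ?_, ?_⟩ <;> simp [amap, fO, fX, fY, v_ce, v_se, v_ca, v_sa, v_cb, v_sb] <;> try ring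

theorem me0 {x : Plane} (h : x ∈ cls 0) :
    -2 ≤ x 0 ∧ x 0 ≤ 9 / 4 ∧ -(1 / 10) ≤ x 1 ∧ x 1 ≤ 1 / 10 ∧ 0 ≤ 0 * x 0 + 1 * x 1 + 0 ∧ 0 ≤ 24 * x 0 + 7 * x 1 + 0 ∧ 0 ≤ -(8) * x 0 + -(15) * x 1 + 8 := by
  obtain ⟨⟨a1, a2, a3, a4⟩, h⟩ := h
  simp [ineqs, aff] at h
  refine ⟨a1, a2, a3, a4, ?_, ?_, ?_⟩ <;>
    linarith [h.1, h.2.1, h.2.2.1]

theorem co1 (x : Plane) :
    amap (fO 2) (fX 2) (fY 2) 1 x 0 = 0 + (-(355627 / 423125)) * x 0 + (-(227136 / 423125)) * x 1 ∧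
    amap (fO 2) (fX 2) (fY 2) 1 x 1 = 0 + (-(227136 / 423125)) * x 0 + (356877 / 423125) * x 1 ∧
    amap (fO 2) (fX 2) (fY 2) 1 x 2 = 0 + (-(1248 / 16925)) * x 0 + (-(364 / 16925)) * x 1 := by
  refine ⟨?_, ?_, ?_⟩ <;> simp [amap, fO, fX, fY, v_ce, v_se, v_ca, v_sa, v_cb, v_sb] <;> try ring

theorem me1 {x : Plane} (h : x ∈ cls 1) :
    -2 ≤ x 0 ∧ x 0 ≤ 9 / 4 ∧ -(1 / 10) ≤ x 1 ∧ x 1 ≤ 1 / 10 ∧ 0 ≤ -(24) * x 0 + -(7) * x 1 + 0 ∧ 0 ≤ -(1144) * x 0 + 2583 * x 1 + 0 := by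
  obtain ⟨⟨a1, a2, a3, a4⟩, h⟩ := h
  simp [ineqs, aff] at h
  refine ⟨a1, a2, a3, a4, ?_, ?_⟩ <;>
    linarith [h.1, h.2.1]

theorem co2 (x : Plane) :
    amap (fO 2) (fX 2) (fY 2) 2 x 0 = 0 + (-(8314875 / 8644613)) * x 0 + (-(2271360 / 8644613)) * x 1 ∧
    amap (fO 2) (fX 2) (fY 2) 2 x 1 = 0 + (4181632 / 43223065) * x 0 + (-(25373799 / 43223065)) * x 1 ∧
    amap (fO 2) (fX 2) (fY 2) 2 x 2 = 0 + (11059776 / 43223065) * x 0 + (-(33097232 / 43223065)) * x 1 := by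
  refine ⟨?_, ?_, ?_⟩ <;> simp [amap, fO, fX, fY, v_ce, v_se, v_ca, v_sa, v_cb, v_sb] <;> try ring

theorem me2 {x : Plane} (h : x ∈ cls 2) :
    -2 ≤ x 0 ∧ x 0 ≤ 9 / 4 ∧ -(1 / 10) ≤ x 1 ∧ x 1 ≤ 1 / 10 ∧ 0 ≤ 1144 * x 0 + -(2583) * x 1 + 0 ∧ 0 ≤ -(112) * x 0 + -(15) * x 1 + 0 := by
  obtain ⟨⟨a1, a2, a3, a4⟩, h⟩ := h
  simp [ineqs, aff] at h
  refine ⟨a1, a2, a3, a4, ?_, ?_⟩ <;>
    linarith [h.1, h.2.1]

theorem co3 (x : Plane) :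
    amap (fO 2) (fX 2) (fY 2) 3 x 0 = 0 + (1) * x 0 + (0) * x 1 ∧
    amap (fO 2) (fX 2) (fY 2) 3 x 1 = 0 + (0) * x 0 + (-(3 / 5)) * x 1 ∧
    amap (fO 2) (fX 2) (fY 2) 3 x 2 = 0 + (0) * x 0 + (-(4 / 5)) * x 1 := by
  refine ⟨?_, ?_, ?_⟩ <;> simp [amap, fO, fX, fY, v_ce, v_se, v_ca, v_sa, v_cb, v_sb] <;> try ring

theorem me3 {x : Plane} (h : x ∈ cls 3) :
    -2 ≤ x 0 ∧ x 0 ≤ 9 / 4 ∧ -(1 / 10) ≤ x 1 ∧ x 1 ≤ 1 / 10 ∧ 0 ≤ 0 * x 0 + -(1) * x 1 + 0 ∧ 0 ≤ 112 * x 0 + 15 * x 1 + 0 ∧ 0 ≤ -(12) * x 0 + -(5) * x 1 + 12 := by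
  obtain ⟨⟨a1, a2, a3, a4⟩, h⟩ := h
  simp [ineqs, aff] at h
  refine ⟨a1, a2, a3, a4, ?_, ?_, ?_⟩ <;>
    linarith [h.1, h.2.1, h.2.2.1]

theorem co4 (x : Plane) :
    amap (fO 2) (fX 2) (fY 2) 4 x 0 = 12800 / 43061 + (30261 / 43061) * x 0 + (-(24000 / 43061)) * x 1 ∧
    amap (fO 2) (fX 2) (fY 2) 4 x 1 = 24000 / 43061 + (-(24000 / 43061)) * x 0 + (-(1939 / 43061)) * x 1 ∧
    amap (fO 2) (fX 2) (fY 2) 4 x 2 = 1120 / 2533 + (-(1120 / 2533)) * x 0 + (-(2100 / 2533)) * x 1 := by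
  refine ⟨?_, ?_, ?_⟩ <;> simp [amap, fO, fX, fY, v_ce, v_se, v_ca, v_sa, v_cb, v_sb] <;> try ring

theorem me4 {x : Plane} (h : x ∈ cls 4) :
    -2 ≤ x 0 ∧ x 0 ≤ 9 / 4 ∧ -(1 / 10) ≤ x 1 ∧ x 1 ≤ 1 / 10 ∧ 0 ≤ 8 * x 0 + 15 * x 1 + -(8) ∧ 0 ≤ -(220) * x 0 + 21 * x 1 + 220 := by
  obtain ⟨⟨a1, a2, a3, a4⟩, h⟩ := h
  simp [ineqs, aff] at h
  refine ⟨a1, a2, a3, a4, ?_, ?_⟩ <;>
    linarith [h.1, h.2.1]

theorem co5 (x : Plane) :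
    amap (fO 2) (fX 2) (fY 2) 5 x 0 = 28800 / 25181 + (-(3619 / 25181)) * x 0 + (-(12000 / 25181)) * x 1 ∧
    amap (fO 2) (fX 2) (fY 2) 5 x 1 = -(24672 / 25181) + (24672 / 25181) * x 0 + (-(24143 / 125905)) * x 1 ∧
    amap (fO 2) (fX 2) (fY 2) 5 x 2 = 3504 / 25181 + (-(3504 / 25181)) * x 0 + (-(108024 / 125905)) * x 1 := by
  refine ⟨?_, ?_, ?_⟩ <;> simp [amap, fO, fX, fY, v_ce, v_se, v_ca, v_sa, v_cb, v_sb] <;> try ring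

theorem me5 {x : Plane} (h : x ∈ cls 5) :
    -2 ≤ x 0 ∧ x 0 ≤ 9 / 4 ∧ -(1 / 10) ≤ x 1 ∧ x 1 ≤ 1 / 10 ∧ 0 ≤ 220 * x 0 + -(21) * x 1 + -(220) ∧ 0 ≤ 12 * x 0 + 5 * x 1 + -(12) := by
  obtain ⟨⟨a1, a2, a3, a4⟩, h⟩ := h
  simp [ineqs, aff] at h
  refine ⟨a1, a2, a3, a4, ?_, ?_⟩ <;>
    linarith [h.1, h.2.1]

theorem far01 (x y : Plane) (hx : x ∈ cls 0) (hy : y ∈ cls 1)
    (h : amap (fO 2) (fX 2) (fY 2) 0 x = amap (fO 2) (fX 2) (fY 2) 1 y) : x = y := by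
  obtain ⟨p0, p1, p2⟩ := co0 x
  obtain ⟨r0, r1, r2⟩ := co1 y
  rw [h] at p0 p1 p2
  have h0 := p0.symm.trans r0
  have h1 := p1.symm.trans r1
  have h2 := p2.symm.trans r2
  clear p0 p1 p2 r0 r1 r2 h
  obtain ⟨a0, a1, a2, a3, a4, a5, a6⟩ := me0 hx
  obtain ⟨b0, b1, b2, b3, b4, b5⟩ := me1 hy
  clear hx hy
  apply ext_plane <;> linarith

theorem far02 (x y : Plane) (hx : x ∈ cls 0) (hy : y ∈ cls 2)
    (h : amap (fO 2) (fX 2) (fY 2) 0 x = amap (fO 2) (fX 2) (fY 2) 2 y) : x = y := by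
  obtain ⟨p0, p1, p2⟩ := co0 x
  obtain ⟨r0, r1, r2⟩ := co2 y
  rw [h] at p0 p1 p2
  have h0 := p0.symm.trans r0
  have h1 := p1.symm.trans r1
  have h2 := p2.symm.trans r2
  clear p0 p1 p2 r0 r1 r2 h
  obtain ⟨a0, a1, a2, a3, a4, a5, a6⟩ := me0 hx
  obtain ⟨b0, b1, b2, b3, b4, b5⟩ := me2 hy
  clear hx hy
  apply ext_plane <;> linarith

theorem far03 (x y : Plane) (hx : x ∈ cls 0) (hy : y ∈ cls 3)
    (h : amap (fO 2) (fX 2) (fY 2) 0 x = amap (fO 2) (fX 2) (fY 2) 3 y) : x = y := by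
  obtain ⟨p0, p1, p2⟩ := co0 x
  obtain ⟨r0, r1, r2⟩ := co3 y
  rw [h] at p0 p1 p2
  have h0 := p0.symm.trans r0
  have h1 := p1.symm.trans r1
  have h2 := p2.symm.trans r2
  clear p0 p1 p2 r0 r1 r2 h
  obtain ⟨a0, a1, a2, a3, a4, a5, a6⟩ := me0 hx
  obtain ⟨b0, b1, b2, b3, b4, b5, b6⟩ := me3 hy
  clear hx hy
  apply ext_plane <;> linarith

theorem far04 (x y : Plane) (hx : x ∈ cls 0) (hy : y ∈ cls 4)
    (h : amap (fO 2) (fX 2) (fY 2) 0 x = amap (fO 2) (fX 2) (fY 2) 4 y) : x = y := by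
  obtain ⟨p0, p1, p2⟩ := co0 x
  obtain ⟨r0, r1, r2⟩ := co4 y
  rw [h] at p0 p1 p2
  have h0 := p0.symm.trans r0
  have h1 := p1.symm.trans r1
  have h2 := p2.symm.trans r2
  clear p0 p1 p2 r0 r1 r2 h
  obtain ⟨a0, a1, a2, a3, a4, a5, a6⟩ := me0 hx
  obtain ⟨b0, b1, b2, b3, b4, b5⟩ := me4 hy
  clear hx hy
  apply ext_plane <;> linarith

theorem far05 (x y : Plane) (hx : x ∈ cls 0) (hy : y ∈ cls 5)
    (h : amap (fO 2) (fX 2) (fY 2) 0 x = amap (fO 2) (fX 2) (fY 2) 5 y) : x = y := by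
  obtain ⟨p0, p1, p2⟩ := co0 x
  obtain ⟨r0, r1, r2⟩ := co5 y
  rw [h] at p0 p1 p2
  have h0 := p0.symm.trans r0
  have h1 := p1.symm.trans r1
  have h2 := p2.symm.trans r2
  clear p0 p1 p2 r0 r1 r2 h
  obtain ⟨a0, a1, a2, a3, a4, a5, a6⟩ := me0 hx
  obtain ⟨b0, b1, b2, b3, b4, b5⟩ := me5 hy
  clear hx hy
  apply ext_plane <;> linarith

theorem far12 (x y : Plane) (hx : x ∈ cls 1) (hy : y ∈ cls 2)
    (h : amap (fO 2) (fX 2) (fY 2) 1 x = amap (fO 2) (fX 2) (fY 2) 2 y) : x = y := by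
  obtain ⟨p0, p1, p2⟩ := co1 x
  obtain ⟨r0, r1, r2⟩ := co2 y
  rw [h] at p0 p1 p2
  have h0 := p0.symm.trans r0
  have h1 := p1.symm.trans r1
  have h2 := p2.symm.trans r2
  clear p0 p1 p2 r0 r1 r2 h
  obtain ⟨a0, a1, a2, a3, a4, a5⟩ := me1 hx
  obtain ⟨b0, b1, b2, b3, b4, b5⟩ := me2 hy
  clear hx hy
  apply ext_plane <;> linarith

theorem far13 (x y : Plane) (hx : x ∈ cls 1) (hy : y ∈ cls 3)
    (h : amap (fO 2) (fX 2) (fY 2) 1 x = amap (fO 2) (fX 2) (fY 2) 3 y) : x = y := by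
  obtain ⟨p0, p1, p2⟩ := co1 x
  obtain ⟨r0, r1, r2⟩ := co3 y
  rw [h] at p0 p1 p2
  have h0 := p0.symm.trans r0
  have h1 := p1.symm.trans r1
  have h2 := p2.symm.trans r2
  clear p0 p1 p2 r0 r1 r2 h
  obtain ⟨a0, a1, a2, a3, a4, a5⟩ := me1 hx
  obtain ⟨b0, b1, b2, b3, b4, b5, b6⟩ := me3 hy
  clear hx hy
  apply ext_plane <;> linarith

theorem far14 (x y : Plane) (hx : x ∈ cls 1) (hy : y ∈ cls 4)
    (h : amap (fO 2) (fX 2) (fY 2) 1 x = amap (fO 2) (fX 2) (fY 2) 4 y) : x = y := by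
  obtain ⟨p0, p1, p2⟩ := co1 x
  obtain ⟨r0, r1, r2⟩ := co4 y
  rw [h] at p0 p1 p2
  have h0 := p0.symm.trans r0
  have h1 := p1.symm.trans r1
  have h2 := p2.symm.trans r2
  clear p0 p1 p2 r0 r1 r2 h
  obtain ⟨a0, a1, a2, a3, a4, a5⟩ := me1 hx
  obtain ⟨b0, b1, b2, b3, b4, b5⟩ := me4 hy
  clear hx hy
  apply ext_plane <;> linarith

theorem far15 (x y : Plane) (hx : x ∈ cls 1) (hy : y ∈ cls 5)
    (h : amap (fO 2) (fX 2) (fY 2) 1 x = amap (fO 2) (fX 2) (fY 2) 5 y) : x = y := by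
  obtain ⟨p0, p1, p2⟩ := co1 x
  obtain ⟨r0, r1, r2⟩ := co5 y
  rw [h] at p0 p1 p2
  have h0 := p0.symm.trans r0
  have h1 := p1.symm.trans r1
  have h2 := p2.symm.trans r2
  clear p0 p1 p2 r0 r1 r2 h
  obtain ⟨a0, a1, a2, a3, a4, a5⟩ := me1 hx
  obtain ⟨b0, b1, b2, b3, b4, b5⟩ := me5 hy
  clear hx hy
  apply ext_plane <;> linarith

theorem far23 (x y : Plane) (hx : x ∈ cls 2) (hy : y ∈ cls 3)
    (h : amap (fO 2) (fX 2) (fY 2) 2 x = amap (fO 2) (fX 2) (fY 2) 3 y) : x = y := by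
  obtain ⟨p0, p1, p2⟩ := co2 x
  obtain ⟨r0, r1, r2⟩ := co3 y
  rw [h] at p0 p1 p2
  have h0 := p0.symm.trans r0
  have h1 := p1.symm.trans r1
  have h2 := p2.symm.trans r2
  clear p0 p1 p2 r0 r1 r2 h
  obtain ⟨a0, a1, a2, a3, a4, a5⟩ := me2 hx
  obtain ⟨b0, b1, b2, b3, b4, b5, b6⟩ := me3 hy
  clear hx hy
  apply ext_plane <;> linarith

theorem far24 (x y : Plane) (hx : x ∈ cls 2) (hy : y ∈ cls 4)
    (h : amap (fO 2) (fX 2) (fY 2) 2 x = amap (fO 2) (fX 2) (fY 2) 4 y) : x = y := by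
  obtain ⟨p0, p1, p2⟩ := co2 x
  obtain ⟨r0, r1, r2⟩ := co4 y
  rw [h] at p0 p1 p2
  have h0 := p0.symm.trans r0
  have h1 := p1.symm.trans r1
  have h2 := p2.symm.trans r2
  clear p0 p1 p2 r0 r1 r2 h
  obtain ⟨a0, a1, a2, a3, a4, a5⟩ := me2 hx
  obtain ⟨b0, b1, b2, b3, b4, b5⟩ := me4 hy
  clear hx hy
  apply ext_plane <;> linarith

theorem far25 (x y : Plane) (hx : x ∈ cls 2) (hy : y ∈ cls 5)
    (h : amap (fO 2) (fX 2) (fY 2) 2 x = amap (fO 2) (fX 2) (fY 2) 5 y) : x = y := by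
  obtain ⟨p0, p1, p2⟩ := co2 x
  obtain ⟨r0, r1, r2⟩ := co5 y
  rw [h] at p0 p1 p2
  have h0 := p0.symm.trans r0
  have h1 := p1.symm.trans r1
  have h2 := p2.symm.trans r2
  clear p0 p1 p2 r0 r1 r2 h
  obtain ⟨a0, a1, a2, a3, a4, a5⟩ := me2 hx
  obtain ⟨b0, b1, b2, b3, b4, b5⟩ := me5 hy
  clear hx hy
  apply ext_plane <;> linarith

theorem far34 (x y : Plane) (hx : x ∈ cls 3) (hy : y ∈ cls 4)
    (h : amap (fO 2) (fX 2) (fY 2) 3 x = amap (fO 2) (fX 2) (fY 2) 4 y) : x = y := by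
  obtain ⟨p0, p1, p2⟩ := co3 x
  obtain ⟨r0, r1, r2⟩ := co4 y
  rw [h] at p0 p1 p2
  have h0 := p0.symm.trans r0
  have h1 := p1.symm.trans r1
  have h2 := p2.symm.trans r2
  clear p0 p1 p2 r0 r1 r2 h
  obtain ⟨a0, a1, a2, a3, a4, a5, a6⟩ := me3 hx
  obtain ⟨b0, b1, b2, b3, b4, b5⟩ := me4 hy
  clear hx hy
  apply ext_plane <;> linarith

theorem far35 (x y : Plane) (hx : x ∈ cls 3) (hy : y ∈ cls 5)
    (h : amap (fO 2) (fX 2) (fY 2) 3 x = amap (fO 2) (fX 2) (fY 2) 5 y) : x = y := by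
  obtain ⟨p0, p1, p2⟩ := co3 x
  obtain ⟨r0, r1, r2⟩ := co5 y
  rw [h] at p0 p1 p2
  have h0 := p0.symm.trans r0
  have h1 := p1.symm.trans r1
  have h2 := p2.symm.trans r2
  clear p0 p1 p2 r0 r1 r2 h
  obtain ⟨a0, a1, a2, a3, a4, a5, a6⟩ := me3 hx
  obtain ⟨b0, b1, b2, b3, b4, b5⟩ := me5 hy
  clear hx hy
  apply ext_plane <;> linarith

theorem far45 (x y : Plane) (hx : x ∈ cls 4) (hy : y ∈ cls 5)
    (h : amap (fO 2) (fX 2) (fY 2) 4 x = amap (fO 2) (fX 2) (fY 2) 5 y) : x = y := by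
  obtain ⟨p0, p1, p2⟩ := co4 x
  obtain ⟨r0, r1, r2⟩ := co5 y
  rw [h] at p0 p1 p2
  have h0 := p0.symm.trans r0
  have h1 := p1.symm.trans r1
  have h2 := p2.symm.trans r2
  clear p0 p1 p2 r0 r1 r2 h
  obtain ⟨a0, a1, a2, a3, a4, a5⟩ := me4 hx
  obtain ⟨b0, b1, b2, b3, b4, b5⟩ := me5 hy
  clear hx hy
  apply ext_plane <;> linarith

end Pool.Agent.TH560.Ori
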