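import Mathlib
import Pool.Agent.TH560.Ori.Frames2

set_option autoImplicit false

/-! The folded states for small parameters have no self-crossing. -/

namespace Pool.Agent.TH560.Ori

open Set Filter Topology

theorem continuous_ce : Continuous ce := by
  unfold ce
  exact Continuous.div (by fun_prop) (by fun_prop) (fun t => by positivity)

theorem continuous_se : Continuous se := by
  unfold se
  exact Continuous.div (by fun_prop) (by fun_prop) (fun t => by positivity)

theorem continuous_ca : Continuous ca := by
  unfold ca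
  exact Continuous.div (by fun_prop) (by fun_prop) (fun t => by positivity)

theorem continuous_sa : Continuous sa := by
  unfold sa
  exact Continuous.div (by fun_prop) (by fun_prop) (fun t => by positivity)

theorem continuous_cb : Continuous cb := by
  unfold cb
  exact Continuous.div (by fun_prop) (by fun_prop) (fun t => by positivity)

theorem continuous_sb : Continuous sb := by
  unfold sb
  exact Continuous.div (by fun_prop) (by fun_prop) (fun t => by positivity)

theorem continuous_vec (f g h : ℝ → ℝ) (hf : Continuous f) (hg : Continuous g)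
    (hh : Continuous h) : Continuous (fun t => (!₂[f t, g t, h t] : Space)) := by
  apply (PiLp.continuous_toLp 2 _).comp
  apply continuous_pi
  intro i
  fin_cases i
  · exact hf
  · exact hg
  · exact hh

theorem continuous_fX (j : Fin 6) : Continuous (fun t => fX t j) := by
  have h1 := continuous_ce
  have h2 := continuous_se
  have h3 := continuous_ca
  have h4 := continuous_sa
  have h5 := continuous_cb
  have h6 := continuous_sb
  fin_cases j <;> simp only [fX] <;> apply continuous_vec <;> fun_prop

theorem continuous_fY (j : Fin 6) : Continuous (fun t => fY t j) := by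
  have h1 := continuous_ce
  have h2 := continuous_se
  have h3 := continuous_ca
  have h4 := continuous_sa
  have h5 := continuous_cb
  have h6 := continuous_sb
  fin_cases j <;> simp only [fY] <;> apply continuous_vec <;> fun_prop

theorem fX_zero (j : Fin 6) : fX 0 j = !₂[1, 0, 0] := by
  fin_cases j <;> apply ext_space <;> simp [fX, ca, sa, ce, se, cb, sb] <;> norm_num

theorem fY_zero (j : Fin 6) : fY 0 j = !₂[0, 1, 0] := by
  fin_cases j <;> apply ext_space <;> simp [fY, ca, sa, ce, se, cb, sb] <;> norm_num

theorem exists_small : ∃ δ > 0, ∀ t : ℝ, |t| < δ → ∀ j,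
    ‖fX t j - !₂[1, 0, 0]‖ < 1 / 4 ∧ ‖fY t j - !₂[0, 1, 0]‖ < 1 / 4 := by
  have h : ∀ᶠ t in 𝓝 (0 : ℝ), ∀ j : Fin 6,
      ‖fX t j - !₂[1, 0, 0]‖ < 1 / 4 ∧ ‖fY t j - !₂[0, 1, 0]‖ < 1 / 4 := by
    rw [Filter.eventually_all]
    intro j
    apply Filter.Eventually.and
    · have hc : Continuous (fun t => ‖fX t j - !₂[1, 0, 0]‖) :=
        ((continuous_fX j).sub continuous_const).norm
      apply hc.continuousAt.eventually_lt continuousAt_const
      rw [fX_zero, sub_self, norm_zero]; norm_num
    · have hc : Continuous (fun t => ‖fY t j - !₂[0, 1, 0]‖) :=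
        ((continuous_fY j).sub continuous_const).norm
      apply hc.continuousAt.eventually_lt continuousAt_const
      rw [fY_zero, sub_self, norm_zero]; norm_num
  rw [Metric.eventually_nhds_iff] at h
  obtain ⟨δ, hδ, h⟩ := h
  refine ⟨δ, hδ, fun t ht => h ?_⟩
  rw [Real.dist_eq, sub_zero]; exact ht

/-- the standard embedding -/
noncomputable def emb (x : Plane) : Space := !₂[x 0, x 1, 0]

theorem norm_emb (x y : Plane) : ‖emb y - emb x‖ = ‖y - x‖ := by
  apply (sq_eq_sq₀ (norm_nonneg _) (norm_nonneg _)).1
  rw [normSq_space, normSq_plane]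
  simp [emb]

/-- Folded states close to the unfolded state are injective. -/
theorem near_inj (t : ℝ) (ht : ∀ j, ‖fX t j - !₂[1, 0, 0]‖ < 1 / 4 ∧
      ‖fY t j - !₂[0, 1, 0]‖ < 1 / 4)
    (σ : Plane → Space) (hσ : ∀ j, ∀ x ∈ cls j, σ x = amap (fO t) (fX t) (fY t) j x) :
    InjOn σ sheet := by
  intro x hx y hy hxy
  have key := glue_convex sheet convex_sheet cls isClosed_cls sheet_subset
    (fun x => σ x - emb x) (1 / 2)
    (by
      rintro j u ⟨-, hu⟩ v ⟨-, hv⟩
      rw [hσ j u hu, hσ j v hv]
      have e : amap (fO t) (fX t) (fY t) j v - emb v - (amap (fO t) (fX t) (fY t) j u - emb u) =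
          (v 0 - u 0) • (fX t j - !₂[1, 0, 0]) + (v 1 - u 1) • (fY t j - !₂[0, 1, 0]) := by
        apply ext_space <;> simp [amap, emb] <;> ring
      rw [e]
      have h0 : |v 0 - u 0| ≤ ‖v - u‖ := by
        have := PiLp.norm_apply_le (v - u) 0
        simpa using this
      have h1 : |v 1 - u 1| ≤ ‖v - u‖ := by
        have := PiLp.norm_apply_le (v - u) 1
        simpa using this
      calc ‖(v 0 - u 0) • (fX t j - !₂[1, 0, 0]) + (v 1 - u 1) • (fY t j - !₂[0, 1, 0])‖
          ≤ ‖(v 0 - u 0) • (fX t j - !₂[1, 0, 0])‖ +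
            ‖(v 1 - u 1) • (fY t j - !₂[0, 1, 0])‖ := norm_add_le _ _
        _ = |v 0 - u 0| * ‖fX t j - !₂[1, 0, 0]‖ + |v 1 - u 1| * ‖fY t j - !₂[0, 1, 0]‖ := by
            rw [norm_smul, norm_smul, Real.norm_eq_abs, Real.norm_eq_abs]
        _ ≤ ‖v - u‖ * (1 / 4) + ‖v - u‖ * (1 / 4) := by
            apply add_le_add
            · exact mul_le_mul h0 (ht j).1.le (norm_nonneg _) (norm_nonneg _)
            · exact mul_le_mul h1 (ht j).2.le (norm_nonneg _) (norm_nonneg _)
        _ = 1 / 2 * ‖v - u‖ := by ring)
    x hx y hy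
  simp only [hxy] at key
  have e : σ y - emb y - (σ y - emb x) = -(emb y - emb x) := by abel
  rw [e, norm_neg, norm_emb] at key
  have h0 : ‖y - x‖ = 0 := by linarith [norm_nonneg (y - x)]
  exact (sub_eq_zero.1 (norm_eq_zero.1 h0)).symm

end Pool.Agent.TH560.Ori
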