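import Mathlib
import Pool.Agent.TH560.Ori.Side

set_option autoImplicit false

/-! Equations for the frames of the faces of a rigid origami with the crease pattern `pat`. -/

namespace Pool.Agent.TH560.Ori

open Set Filter Topology

theorem rel {σ : Plane → Space} {ρ : Fin 7 → ℝ} (h : pat.IsRigidOrigami σ ρ) (i : Fin 7)
    (Ol Or Xl Yl Xr Yr : Space)
    (hl : ∀ x ∈ cls (lft i), σ x = Ol + x 0 • Xl + x 1 • Yl)
    (hr : ∀ x ∈ cls (rgt i), σ x = Or + x 0 • Xr + x 1 • Yr) :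
    ((qq i 0 - pp i 0) • Xl + (qq i 1 - pp i 1) • Yl =
      (qq i 0 - pp i 0) • Xr + (qq i 1 - pp i 1) • Yr) ∧
    ((-(qq i 1 - pp i 1)) • Xr + (qq i 0 - pp i 0) • Yr =
      Real.cos (ρ i) • ((-(qq i 1 - pp i 1)) • Xl + (qq i 0 - pp i 0) • Yl) -
        (Real.sin (ρ i) * ‖qq i - pp i‖) • cross Xl Yl) := by
  have hp : pp i ∈ segment ℝ (pp i) (qq i) := left_mem_segment ℝ _ _
  have hq : qq i ∈ segment ℝ (pp i) (qq i) := right_mem_segment ℝ _ _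
  constructor
  · have e1 := hl _ (seg_left i hp)
    have e2 := hl _ (seg_left i hq)
    have e3 := hr _ (seg_right i hp)
    have e4 := hr _ (seg_right i hq)
    have e5 : σ (qq i) - σ (pp i) = (qq i 0 - pp i 0) • Xl + (qq i 1 - pp i 1) • Yl := by
      rw [e1, e2]; module
    have e6 : σ (qq i) - σ (pp i) = (qq i 0 - pp i 0) • Xr + (qq i 1 - pp i 1) • Yr := by
      rw [e3, e4]; module
    rw [← e5, ← e6]
  · have hne : pp i ≠ qq i := pat.p_ne_q i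
    have hm : midpoint ℝ (pp i) (qq i) ∈ openSegment ℝ (pp i) (qq i) := by
      refine ⟨1 / 2, 1 / 2, by norm_num, by norm_num, by norm_num, ?_⟩
      rw [midpoint_eq_smul_add, ← smul_add, one_div, invOf_eq_inv]
    exact fold_rel σ (pp i) (qq i) (ρ i) (h.foldAngle i) (cls (lft i)) (cls (rgt i)) Ol Or Xl Yl
      Xr Yr hl hr _ hm (seg_left i (openSegment_subset_segment ℝ _ _ hm))
      (seg_right i (openSegment_subset_segment ℝ _ _ hm)) (seg_left i hp) (seg_left i hq) hne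
      (ev_left i _ hm) (ev_right i _ hm)

theorem norm_d3 : ‖qq 3 - pp 3‖ = 113 / 1120 := by
  have h := normSq_plane (qq 3 - pp 3)
  simp [pp, qq, vv] at h
  have h0 : 0 ≤ ‖qq 3 - pp 3‖ := norm_nonneg _
  have h1 : ‖qq 3 - pp 3‖ ^ 2 = (113 / 1120) ^ 2 := by
    simp [pp, qq, vv]
    rw [h]; norm_num
  exact (sq_eq_sq₀ h0 (by norm_num)).1 h1

theorem norm_d6 : ‖qq 6 - pp 6‖ = 13 / 120 := by
  have h := normSq_plane (qq 6 - pp 6)
  simp [pp, qq, ww] at h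
  have h0 : 0 ≤ ‖qq 6 - pp 6‖ := norm_nonneg _
  have h1 : ‖qq 6 - pp 6‖ ^ 2 = (13 / 120) ^ 2 := by
    simp [pp, qq, ww]
    rw [h]; norm_num
  exact (sq_eq_sq₀ h0 (by norm_num)).1 h1

theorem norm_d0 : ‖qq 0 - pp 0‖ = 1 := by
  have h := normSq_plane (qq 0 - pp 0)
  have h0 : 0 ≤ ‖qq 0 - pp 0‖ := norm_nonneg _
  have h1 : (qq 0 - pp 0) 0 = 1 := by simp [pp, qq, vv, ww]
  have h2 : (qq 0 - pp 0) 1 = 0 := by simp [pp, qq, vv, ww]
  rw [h1, h2] at h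
  nlinarith

section

variable {σ : Plane → Space} {ρ : Fin 7 → ℝ}

/-- Everything that is needed about the frames of the faces. -/
theorem data (h : pat.IsRigidOrigami σ ρ) : ∃ O X Y X1 Y1 X5 Y5 : Space,
    ON X Y ∧ ON X5 Y5 ∧
    (∀ x ∈ cls 1, σ x = O + x 0 • X1 + x 1 • Y1) ∧
    (∀ x ∈ cls 5, σ x = (O + X - X5) + x 0 • X5 + x 1 • Y5) ∧
    (-7 : ℝ) • X1 + (24 : ℝ) • Y1 = (-7 : ℝ) • X + (24 : ℝ) • Y ∧
    (-2583 : ℝ) • X1 + (-1144 : ℝ) • Y1 = (105 - 2688 * Real.cos (ρ 3)) • X +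
      (-784 * Real.cos (ρ 0) - 360 * Real.cos (ρ 3) * Real.cos (ρ 0) +
        2712 * Real.sin (ρ 3) * Real.sin (ρ 0)) • Y +
      (784 * Real.sin (ρ 0) + 360 * Real.cos (ρ 3) * Real.sin (ρ 0) +
        2712 * Real.sin (ρ 3) * Real.cos (ρ 0)) • cross X Y ∧
    (5 : ℝ) • X5 + (-12 : ℝ) • Y5 = (5 : ℝ) • X + (-12 * Real.cos (ρ 0)) • Y +
      (12 * Real.sin (ρ 0)) • cross X Y ∧
    (12 : ℝ) • X5 + (5 : ℝ) • Y5 = (12 * Real.cos (ρ 6)) • X +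
      (5 * Real.cos (ρ 6) * Real.cos (ρ 0) + 13 * Real.sin (ρ 6) * Real.sin (ρ 0)) • Y +
      (-5 * Real.cos (ρ 6) * Real.sin (ρ 0) + 13 * Real.sin (ρ 6) * Real.cos (ρ 0)) • cross X Y ∧
    -7 * (105 - 2688 * Real.cos (ρ 3)) + 24 * (-784 * Real.cos (ρ 0) -
      360 * Real.cos (ρ 3) * Real.cos (ρ 0) + 2712 * Real.sin (ρ 3) * Real.sin (ρ 0)) = -9375 ∧
    -15 * (-75 + 96 * Real.cos (ρ 6)) + 8 * (180 * Real.cos (ρ 0) +
      40 * Real.cos (ρ 6) * Real.cos (ρ 0) + 104 * Real.sin (ρ 6) * Real.sin (ρ 0)) = 1445 := by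
  obtain ⟨X, Y, hXY, h0⟩ := frame h 0 vv ww (qq 1) (m_vv 0 (by decide)) (m_ww 0 (by decide))
    m_q1_0 (by simp [vv, ww, qq])
  obtain ⟨X1, Y1, hXY1, h1⟩ := frame h 1 vv (qq 1) (qq 2) (m_vv 1 (by decide)) m_q1_1 m_q2_1
    (by simp [vv, qq]; norm_num)
  obtain ⟨X2, Y2, hXY2, h2⟩ := frame h 2 vv (qq 2) (qq 3) (m_vv 2 (by decide)) m_q2_2 m_q3_2
    (by simp [vv, qq]; norm_num)
  obtain ⟨X3, Y3, hXY3, h3⟩ := frame h 3 vv ww (qq 3) (m_vv 3 (by decide)) (m_ww 3 (by decide))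
    m_q3_3 (by simp [vv, ww, qq])
  obtain ⟨X4, Y4, hXY4, h4⟩ := frame h 4 ww (qq 4) (qq 5) (m_ww 4 (by decide)) m_q4_4 m_q5_4
    (by simp [ww, qq]; norm_num)
  obtain ⟨X5, Y5, hXY5, h5⟩ := frame h 5 ww (qq 5) (qq 6) (m_ww 5 (by decide)) m_q5_5 m_q6_5
    (by simp [ww, qq]; norm_num)
  -- relations
  obtain ⟨a0, b0⟩ := rel h 0 _ _ X Y X3 Y3 h0 h3
  obtain ⟨a1, -⟩ := rel h 1 _ _ X1 Y1 X Y h1 h0
  obtain ⟨a2, -⟩ := rel h 2 _ _ X2 Y2 X1 Y1 h2 h1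
  obtain ⟨a3, b3⟩ := rel h 3 _ _ X3 Y3 X2 Y2 h3 h2
  obtain ⟨a4, -⟩ := rel h 4 _ _ X Y X4 Y4 h0 h4
  obtain ⟨a5, -⟩ := rel h 5 _ _ X4 Y4 X5 Y5 h4 h5
  obtain ⟨a6, b6⟩ := rel h 6 _ _ X5 Y5 X3 Y3 h5 h3
  have b6' := fold_inv X5 Y5 X3 Y3 hXY5 _ _ _ _ _ (by rw [norm_d6]; norm_num)
    (normSq_plane _) (Real.cos_sq_add_sin_sq (ρ 6)) a6 b6
  rw [norm_d0] at b0
  rw [norm_d3] at b3
  rw [norm_d6] at b6'
  simp [pp, qq, vv, ww] at a0 b0 a1 a2 a3 b3 a4 a5 a6 b6'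
  subst a0
  set c := Real.cos (ρ 0) with hc
  set s := Real.sin (ρ 0) with hs
  set C3 := Real.cos (ρ 3) with hC3
  set S3 := Real.sin (ρ 3) with hS3
  set C6 := Real.cos (ρ 6) with hC6
  set S6 := Real.sin (ρ 6) with hS6
  set Z := cross X Y with hZ
  have hZ3 : cross X Y3 = c • Z + s • Y := by
    rw [b0, cross_sub_right, cross_smul_right, cross_smul_right, hXY.cross_x]; module
  rw [hZ3] at b3 b6'
  have e1 : (-7 : ℝ) • X1 + (24 : ℝ) • Y1 = (-7 : ℝ) • X + (24 : ℝ) • Y := by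
    linear_combination (norm := module) (240 : ℝ) • a1
  have e2 : (-2583 : ℝ) • X1 + (-1144 : ℝ) • Y1 = (-2583 : ℝ) • X2 + (-1144 : ℝ) • Y2 := by
    linear_combination (norm := module) (-11440 : ℝ) • a2
  have e3 : (15 : ℝ) • X2 + (-112 : ℝ) • Y2 = (15 : ℝ) • X + (-112 : ℝ) • Y3 := by
    linear_combination (norm := module) (-1120 : ℝ) • a3
  have e4 : (112 : ℝ) • X2 + (15 : ℝ) • Y2 = (112 * C3) • X + (15 * C3) • Y3 -
      (113 * S3) • (c • Z + s • Y) := by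
    linear_combination (norm := module) (1120 : ℝ) • b3
  have e5 : (-15 : ℝ) • X4 + (8 : ℝ) • Y4 = (-15 : ℝ) • X + (8 : ℝ) • Y := by
    linear_combination (norm := module) (-80 : ℝ) • a4
  have e6 : (21 : ℝ) • X4 + (220 : ℝ) • Y4 = (21 : ℝ) • X5 + (220 : ℝ) • Y5 := by
    linear_combination (norm := module) (2200 : ℝ) • a5
  have e7 : (5 : ℝ) • X5 + (-12 : ℝ) • Y5 = (5 : ℝ) • X + (-12 : ℝ) • Y3 := by
    linear_combination (norm := module) (120 : ℝ) • a6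
  have e8 : (12 : ℝ) • X5 + (5 : ℝ) • Y5 = (12 * C6) • X + (5 * C6) • Y3 +
      (13 * S6) • (c • Z + s • Y) := by
    linear_combination (norm := module) (120 : ℝ) • b6'
  have e9 : (-2583 : ℝ) • X1 + (-1144 : ℝ) • Y1 = (105 - 2688 * C3) • X +
      (-784 * c - 360 * C3 * c + 2712 * S3 * s) • Y +
      (784 * s + 360 * C3 * s + 2712 * S3 * c) • Z := by
    rw [b0] at e3 e4
    linear_combination (norm := module) e2 + (7 : ℝ) • e3 - (24 : ℝ) • e4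
  have e10 : (5 : ℝ) • X5 + (-12 : ℝ) • Y5 = (5 : ℝ) • X + (-12 * c) • Y +
      (12 * s) • Z := by
    rw [b0] at e7
    linear_combination (norm := module) e7
  have e11 : (12 : ℝ) • X5 + (5 : ℝ) • Y5 = (12 * C6) • X +
      (5 * C6 * c + 13 * S6 * s) • Y + (-5 * C6 * s + 13 * S6 * c) • Z := by
    rw [b0] at e8
    linear_combination (norm := module) e8
  have e12 : (21 : ℝ) • X4 + (220 : ℝ) • Y4 = (-75 + 96 * C6) • X +
      (180 * c + 40 * C6 * c + 104 * S6 * s) • Y +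
      (-180 * s - 40 * C6 * s + 104 * S6 * c) • Z := by
    linear_combination (norm := module) e6 - (15 : ℝ) • e10 + (8 : ℝ) • e11
  refine ⟨σ vv, X, Y, X1, Y1, X5, Y5, hXY, hXY5, ?_, ?_, e1, e9, e10, e11, ?_, ?_⟩
  · intro x hx
    rw [h1 x hx]
    simp [vv]
  · intro x hx
    have hw : σ ww = σ vv + X := by
      rw [h0 ww (m_ww 0 (by decide))]
      simp [vv, ww]
    rw [h5 x hx, hw]
    simp [ww]
  · have k1 := hXY1.inner_comb (-7) 24 (-2583) (-1144)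
    rw [e1, e9] at k1
    have k2 := hXY.inner_comb3 (-7) 24 0 (105 - 2688 * C3)
      (-784 * c - 360 * C3 * c + 2712 * S3 * s) (784 * s + 360 * C3 * s + 2712 * S3 * c)
    rw [zero_smul, add_zero, ← hZ, k1] at k2
    linarith
  · have k1 := hXY4.inner_comb (-15) 8 21 220
    rw [e5, e12] at k1
    have k2 := hXY.inner_comb3 (-15) 8 0 (-75 + 96 * C6)
      (180 * c + 40 * C6 * c + 104 * S6 * s) (-180 * s - 40 * C6 * s + 104 * S6 * c)
    rw [zero_smul, add_zero, ← hZ, k1] at k2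
    linarith

end

end Pool.Agent.TH560.Ori
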