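import Mathlib
import Pool.Agent.TH560.Ori.Bar

set_option autoImplicit false

/-! The wall in the configuration space: a self-crossing position. -/

namespace Pool.Agent.TH560.Ori

open Set Filter Topology

variable {σ : Plane → Space} {ρ : Fin 7 → ℝ}

theorem no3 (h : pat.IsRigidOrigami σ ρ) (h3 : ρ 3 = 0) : Real.cos (ρ 0) = 1 := by
  obtain ⟨O, X, Y, X1, Y1, X5, Y5, -, -, -, -, -, -, -, -, h9, -⟩ := data h
  rw [h3, Real.cos_zero, Real.sin_zero] at h9
  linarith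

theorem no6 (h : pat.IsRigidOrigami σ ρ) (h6 : ρ 6 = 0) : Real.cos (ρ 0) = 1 := by
  obtain ⟨O, X, Y, X1, Y1, X5, Y5, -, -, -, -, -, -, -, -, -, h9⟩ := data h
  rw [h6, Real.cos_zero, Real.sin_zero] at h9
  linarith

/-- point of face 5 -/
noncomputable def ptW (y : Fin 3 → ℝ) : Plane :=
  !₂[1 + 162578 / 152117 + (y 0 - 1 / 2) / 10, (y 1 - 1 / 2) / 10]

/-- point of face 1 -/
noncomputable def ptV (y : Fin 3 → ℝ) : Plane :=
  !₂[-(265625 / 152117) + (y 2 - 1 / 2) / 10, 0]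

theorem ptW_mem (y : Fin 3 → ℝ) (hy : ∀ i, 0 ≤ y i ∧ y i ≤ 1) : ptW y ∈ cls 5 := by
  have h0 := hy 0
  have h1 := hy 1
  simp [cls, ineqs, aff, ptW, sheet]
  refine ⟨⟨?_, ?_, ?_, ?_⟩, ?_, ?_, ?_, ?_⟩ <;> linarith

theorem ptV_mem (y : Fin 3 → ℝ) (hy : ∀ i, 0 ≤ y i ∧ y i ≤ 1) : ptV y ∈ cls 1 := by
  have h2 := hy 2
  simp [cls, ineqs, aff, ptV, sheet]
  refine ⟨⟨?_, ?_⟩, ?_, ?_⟩ <;> linarith

theorem ptW_continuous : Continuous ptW := by
  unfold ptW
  apply (PiLp.continuous_toLp 2 _).comp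
  fun_prop

theorem ptV_continuous : Continuous ptV := by
  unfold ptV
  apply (PiLp.continuous_toLp 2 _).comp
  fun_prop

/-- the difference map of the two crossing faces -/
noncomputable def lin (X5 Y5 X1 : Space) : (Fin 3 → ℝ) →ₗ[ℝ] Space :=
  (1 / 10 : ℝ) • ((LinearMap.proj 0).smulRight X5 + (LinearMap.proj 1).smulRight Y5 -
    (LinearMap.proj 2).smulRight X1)

theorem lin_apply (X5 Y5 X1 : Space) (y : Fin 3 → ℝ) :
    lin X5 Y5 X1 y = (1 / 10 : ℝ) • (y 0 • X5 + y 1 • Y5 - y 2 • X1) := rfl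

theorem wall (h : pat.IsRigidOrigami σ ρ) (h0 : ρ 0 = Real.pi / 2) (h3 : 0 ≤ ρ 3)
    (h3' : ρ 3 ≤ Real.pi) (h6 : 0 ≤ ρ 6) (h6' : ρ 6 ≤ Real.pi) : False := by
  obtain ⟨O, X, Y, X1, Y1, X5, Y5, hXY, hXY5, g1, g5, e1, e9, e10, e11, k3, k6⟩ := data h
  have hs3 : 0 ≤ Real.sin (ρ 3) := Real.sin_nonneg_of_nonneg_of_le_pi h3 h3'
  have hs6 : 0 ≤ Real.sin (ρ 6) := Real.sin_nonneg_of_nonneg_of_le_pi h6 h6'
  have q3 := Real.sin_sq_add_cos_sq (ρ 3)
  have q6 := Real.sin_sq_add_cos_sq (ρ 6)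
  rw [h0, Real.cos_pi_div_two, Real.sin_pi_div_two] at e9 e10 e11 k3 k6
  generalize Real.cos (ρ 3) = C3 at *
  generalize Real.sin (ρ 3) = S3 at *
  generalize Real.cos (ρ 6) = C6 at *
  generalize Real.sin (ρ 6) = S6 at *
  set Z := cross X Y with hZ
  have hS3 : S3 = 13 / 85 := by
    have hC : C3 = (-45 - 339 * S3) / 98 := by linarith
    rw [hC] at q3
    have : (85 * S3 - 13) * (1465 * S3 + 583) = 0 := by nlinarith
    rcases mul_eq_zero.1 this with h | h <;> linarith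
  have hC3 : C3 = -(84 / 85) := by rw [hS3] at k3; linarith
  have hS6 : S6 = 35 / 37 := by
    have hC : C6 = (26 * S6 - 10) / 45 := by linarith
    rw [hC] at q6
    have : (37 * S6 - 35) * (73 * S6 + 55) = 0 := by nlinarith
    rcases mul_eq_zero.1 this with h | h <;> linarith
  have hC6 : C6 = 12 / 37 := by rw [hS6] at k6; linarith
  subst hS3 hC3 hS6 hC6
  have hX1 : X1 = (-(44219 / 53125) : ℝ) • X + (-(28392 / 53125) : ℝ) • Y +
      (-(7800 / 53125) : ℝ) • Z := by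
    linear_combination (norm := module) (-(1144 / 70000) : ℝ) • e1 - (24 / 70000 : ℝ) • e9
  have hX5 : X5 = (2653 / 6253 : ℝ) • X + (5460 / 6253 : ℝ) • Y + (1500 / 6253 : ℝ) • Z := by
    linear_combination (norm := module) (5 / 169 : ℝ) • e10 + (12 / 169 : ℝ) • e11
  have hY5 : Y5 = (-(1500 / 6253) : ℝ) • X + (2275 / 6253 : ℝ) • Y +
      (-(5628 / 6253) : ℝ) • Z := by
    linear_combination (norm := module) (-(12 / 169) : ℝ) • e10 + (5 / 169 : ℝ) • e11
  have hinj : Function.Injective (lin X5 Y5 X1) := by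
    rw [← LinearMap.ker_eq_bot, LinearMap.ker_eq_bot']
    intro y hy
    rw [lin_apply, smul_eq_zero] at hy
    have hy' := hy.resolve_left (by norm_num)
    have hc : y 0 • X5 + y 1 • Y5 - y 2 • X1 =
        (y 0 * (2653 / 6253) - y 1 * (1500 / 6253) + y 2 * (44219 / 53125)) • X +
        (y 0 * (5460 / 6253) + y 1 * (2275 / 6253) + y 2 * (28392 / 53125)) • Y +
        (y 0 * (1500 / 6253) - y 1 * (5628 / 6253) + y 2 * (7800 / 53125)) • Z := by
      rw [hX1, hX5, hY5]; module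
    rw [hc] at hy'
    have c0 := hXY.inner_comb3
      (y 0 * (2653 / 6253) - y 1 * (1500 / 6253) + y 2 * (44219 / 53125))
      (y 0 * (5460 / 6253) + y 1 * (2275 / 6253) + y 2 * (28392 / 53125))
      (y 0 * (1500 / 6253) - y 1 * (5628 / 6253) + y 2 * (7800 / 53125)) 1 0 0
    have c1 := hXY.inner_comb3
      (y 0 * (2653 / 6253) - y 1 * (1500 / 6253) + y 2 * (44219 / 53125))
      (y 0 * (5460 / 6253) + y 1 * (2275 / 6253) + y 2 * (28392 / 53125))
      (y 0 * (1500 / 6253) - y 1 * (5628 / 6253) + y 2 * (7800 / 53125)) 0 1 0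
    have c2 := hXY.inner_comb3
      (y 0 * (2653 / 6253) - y 1 * (1500 / 6253) + y 2 * (44219 / 53125))
      (y 0 * (5460 / 6253) + y 1 * (2275 / 6253) + y 2 * (28392 / 53125))
      (y 0 * (1500 / 6253) - y 1 * (5628 / 6253) + y 2 * (7800 / 53125)) 0 0 1
    rw [← hZ, hy', inner_zero_left] at c0 c1 c2
    funext i
    fin_cases i
    · change y 0 = 0; linarith
    · change y 1 = 0; linarith
    · change y 2 = 0; linarith
  obtain ⟨ε, hε, hzero⟩ := zero_of_near (lin X5 Y5 X1) hinj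
  obtain ⟨τ, hτc, hτi, hτ⟩ := h.limit (ε / 2) (by positivity)
  obtain ⟨y, hy, hy0⟩ := hzero (fun y => τ (ptW y) - τ (ptV y))
    (by
      apply ContinuousOn.sub
      · exact hτc.comp ptW_continuous.continuousOn (fun y hy => (ptW_mem y hy).1)
      · exact hτc.comp ptV_continuous.continuousOn (fun y hy => (ptV_mem y hy).1))
    (by
      intro y hy
      have hW := hτ _ (ptW_mem y hy).1
      have hV := hτ _ (ptV_mem y hy).1
      have hexact : lin X5 Y5 X1 (fun i => y i - 1 / 2) = σ (ptW y) - σ (ptV y) := by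
        rw [g5 _ (ptW_mem y hy), g1 _ (ptV_mem y hy), lin_apply]
        simp only [ptW, ptV, PiLp.toLp_apply, Matrix.cons_val_zero, Matrix.cons_val_one]
        rw [hX1, hX5]
        module
      rw [hexact, dist_eq_norm]
      rw [dist_eq_norm] at hW hV
      calc ‖τ (ptW y) - τ (ptV y) - (σ (ptW y) - σ (ptV y))‖
          = ‖(τ (ptW y) - σ (ptW y)) - (τ (ptV y) - σ (ptV y))‖ := by congr 1; abel
        _ ≤ ‖τ (ptW y) - σ (ptW y)‖ + ‖τ (ptV y) - σ (ptV y)‖ := norm_sub_le _ _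
        _ < ε := by linarith)
  have heq : ptW y = ptV y :=
    hτi (ptW_mem y hy).1 (ptV_mem y hy).1 (sub_eq_zero.1 hy0)
  have h00 := congrArg (fun x : Plane => x 0) heq
  simp only [ptW, ptV, PiLp.toLp_apply, Matrix.cons_val_zero] at h00
  have hy0' := hy 0
  have hy2' := hy 2
  linarith

end Pool.Agent.TH560.Ori
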