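import Mathlib
import Pool.Agent.TH560.Ori.Wall
import Pool.Agent.TH560.Ori.Near
import Pool.Agent.TH560.Ori.Far

set_option autoImplicit false

/-! The configuration space of the crease pattern `pat` is disconnected. -/

namespace Pool.Agent.TH560.Ori

open Set Filter Topology

theorem ang_mem (t : ℝ) (i : Fin 7) : |ang t i| < Real.pi := by
  unfold ang
  rw [abs_lt]
  have h1 := Real.neg_pi_div_two_lt_arctan (mul i * t)
  have h2 := Real.arctan_lt_pi_div_two (mul i * t)
  constructor <;> linarith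

theorem ang_config (t : ℝ) (hinj : ∀ σ : Plane → Space,
    (∀ j, ∀ x ∈ cls j, σ x = amap (fO t) (fX t) (fY t) j x) → InjOn σ sheet) :
    ang t ∈ pat.config := by
  refine ⟨fun i => ⟨(abs_lt.1 (ang_mem t i)).1.le, (abs_lt.1 (ang_mem t i)).2.le⟩, ?_⟩
  exact build (fO t) (fX t) (fY t) (ang t) (frame_ON t) (fam_p t) (fam_q t) (fam_f t)
    (fun σ h1 _ => hinj σ h1)

theorem far_inj (σ : Plane → Space)
    (hσ : ∀ j, ∀ x ∈ cls j, σ x = amap (fO 2) (fX 2) (fY 2) j x) : InjOn σ sheet := by
  have lt : ∀ i j : Fin 6, i < j → ∀ x y, x ∈ cls i → y ∈ cls j →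
      amap (fO 2) (fX 2) (fY 2) i x = amap (fO 2) (fX 2) (fY 2) j y → x = y := by
    intro i j hij x y hx hy h
    fin_cases i <;> fin_cases j <;> first
      | exact absurd hij (by decide)
      | exact far01 x y hx hy h
      | exact far02 x y hx hy h
      | exact far03 x y hx hy h
      | exact far04 x y hx hy h
      | exact far05 x y hx hy h
      | exact far12 x y hx hy h
      | exact far13 x y hx hy h
      | exact far14 x y hx hy h
      | exact far15 x y hx hy h
      | exact far23 x y hx hy h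
      | exact far24 x y hx hy h
      | exact far25 x y hx hy h
      | exact far34 x y hx hy h
      | exact far35 x y hx hy h
      | exact far45 x y hx hy h
  intro x hx y hy hxy
  obtain ⟨i, hi⟩ := mem_iUnion.1 (sheet_subset hx)
  obtain ⟨j, hj⟩ := mem_iUnion.1 (sheet_subset hy)
  rw [hσ i x hi, hσ j y hj] at hxy
  rcases lt_trichotomy i j with h | h | h
  · exact lt i j h x y hi hj hxy
  · subst h
    have := dist_amap (fO 2) (fX 2) (fY 2) i (frame_ON 2 i) x y
    rw [hxy, dist_self] at this
    exact dist_eq_zero.1 this.symm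
  · exact (lt j i h y x hj hi hxy.symm).symm

theorem far_config : ang 2 ∈ pat.config := ang_config 2 far_inj

theorem exists_near : ∃ δ > 0, ∀ t : ℝ, |t| < δ → ang t ∈ pat.config := by
  obtain ⟨δ, hδ, h⟩ := exists_small
  exact ⟨δ, hδ, fun t ht => ang_config t (fun σ hσ => near_inj t (h t ht) σ hσ)⟩

theorem ang_zero : ang 0 = 0 := by
  funext i; simp [ang]

theorem continuous_ang : Continuous ang := by
  apply continuous_pi
  intro i
  unfold ang
  exact continuous_const.mul (Real.continuous_arctan.comp (by fun_prop))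

theorem zero_config : (0 : Fin 7 → ℝ) ∈ pat.config := by
  obtain ⟨δ, hδ, h⟩ := exists_near
  rw [← ang_zero]
  exact h 0 (by simpa using hδ)

/-- A path of folded states starting in the unfolded state. -/
theorem foldable : ∃ γ : unitInterval → (Fin 7 → ℝ), Continuous γ ∧ γ 0 = 0 ∧
    (∀ t, γ t ∈ pat.config) ∧ (∀ t i, |γ t i| < Real.pi) ∧ ∃ t, γ t ≠ γ 0 := by
  obtain ⟨δ, hδ, h⟩ := exists_near
  refine ⟨fun s => ang (δ / 2 * (s : ℝ)), ?_, ?_, ?_, ?_, 1, ?_⟩
  · exact continuous_ang.comp (by fun_prop)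
  · simp [ang_zero]
  · intro s
    apply h
    rw [abs_of_nonneg (mul_nonneg (by positivity) s.2.1)]
    have := s.2.2
    nlinarith
  · intro s i
    exact ang_mem _ i
  · intro h1
    have h2 := congrFun h1 0
    simp [ang, mul] at h2
    exact hδ.ne' h2

/-- The unfolded state and the state at parameter `2` are separated in the configuration space. -/
theorem separated (C : Set (Fin 7 → ℝ)) (hC : C ⊆ pat.config) (h0 : (0 : Fin 7 → ℝ) ∈ C)
    (h2 : ang 2 ∈ C) : ¬ IsPreconnected C := by
  intro hpre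
  let U : Set (Fin 7 → ℝ) := {ρ | Real.pi / 2 < ρ 0 ∧ 0 < ρ 3 ∧ 0 < ρ 6}
  let V : Set (Fin 7 → ℝ) := {ρ | ρ 0 < Real.pi / 2 ∨ ρ 3 < 0 ∨ ρ 6 < 0}
  have hU : IsOpen U := by
    have e : U = {ρ | Real.pi / 2 < ρ 0} ∩ ({ρ | 0 < ρ 3} ∩ {ρ | 0 < ρ 6}) := rfl
    rw [e]
    exact (isOpen_lt continuous_const (continuous_apply 0)).inter
      ((isOpen_lt continuous_const (continuous_apply 3)).inter
        (isOpen_lt continuous_const (continuous_apply 6)))
  have hV : IsOpen V := by
    have e : V = {ρ | ρ 0 < Real.pi / 2} ∪ ({ρ | ρ 3 < 0} ∪ {ρ | ρ 6 < 0}) := rfl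
    rw [e]
    exact (isOpen_lt (continuous_apply 0) continuous_const).union
      ((isOpen_lt (continuous_apply 3) continuous_const).union
        (isOpen_lt (continuous_apply 6) continuous_const))
  have hcov : C ⊆ U ∪ V := by
    intro ρ hρ
    obtain ⟨hb, σ, hσ⟩ := hC hρ
    rcases lt_trichotomy (ρ 0) (Real.pi / 2) with h | h | h
    · exact Or.inr (Or.inl h)
    · right; right
      by_contra hcon
      push Not at hcon
      exact wall hσ h hcon.1 (hb 3).2 hcon.2 (hb 6).2
    · have hcos : Real.cos (ρ 0) ≤ 0 :=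
        Real.cos_nonpos_of_pi_div_two_le_of_le h.le (by linarith [(hb 0).2, Real.pi_pos])
      rcases lt_trichotomy (ρ 3) 0 with h3 | h3 | h3
      · exact Or.inr (Or.inr (Or.inl h3))
      · exfalso
        have := no3 hσ h3
        linarith
      · rcases lt_trichotomy (ρ 6) 0 with h6 | h6 | h6
        · exact Or.inr (Or.inr (Or.inr h6))
        · exfalso
          have := no6 hσ h6
          linarith
        · exact Or.inl ⟨h, h3, h6⟩
  have e0 : (0 : Fin 7 → ℝ) ∈ V := Or.inl (by simpa using Real.pi_pos)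
  have e2 : ang 2 ∈ U := by
    have m1 : Real.arctan 1 < Real.arctan 2 := Real.arctan_strictMono (by norm_num)
    have m2 : Real.arctan 0 < Real.arctan 26 := Real.arctan_strictMono (by norm_num)
    have m3 : Real.arctan 0 < Real.arctan (10 / 7) := Real.arctan_strictMono (by norm_num)
    rw [Real.arctan_one] at m1
    rw [Real.arctan_zero] at m2 m3
    refine ⟨?_, ?_, ?_⟩
    · simp [ang, mul]
      linarith
    · have e : ang 2 3 = 2 * Real.arctan 26 := by
        simp [ang, mul]; norm_num
      rw [e]; linarith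
    · have e : ang 2 6 = 2 * Real.arctan (10 / 7) := by
        simp [ang, mul]; norm_num
      rw [e]; linarith
  obtain ⟨z, -, ⟨hz1, hz2⟩⟩ := hpre U V hU hV hcov ⟨ang 2, h2, e2⟩ ⟨0, h0, e0⟩
  rcases hz2 with h | h | h
  · exact absurd hz1.1 (not_lt.2 h.le)
  · exact absurd hz1.2.1 (not_lt.2 h.le)
  · exact absurd hz1.2.2 (not_lt.2 h.le)

end Pool.Agent.TH560.Ori
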